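import Mathlib

/-!
# Weights with small twisted sums in all windows are equidistributed in residue classes
-/

namespace Pool.Agent.Lib.MP_d57abb_nt.GT

open Finset Filter Topology

private theorem Abs_split {M : Type*} [AddCommMonoid M] (f : ℕ → M) {a b c : ℕ} (h1 : a ≤ b) (h2 : b ≤ c) :
    ∑ k ∈ Ioc a c, f k = ∑ k ∈ Ioc a b, f k + ∑ k ∈ Ioc b c, f k := by
  rw [← Finset.sum_union]
  · rw [Finset.Ioc_union_Ioc_eq_Ioc h1 h2]
  · rw [Finset.disjoint_left]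
    intro x hx hx'
    rw [Finset.mem_Ioc] at hx hx'
    omega

theorem low_abs {u : ℕ → ℝ} (hu : ∀ k, 0 ≤ u k) {c0 C : ℝ} (hc0 : 0 < c0) (hC : 0 < C) {N0 : ℕ}
    (hlo : ∀ N : ℕ, N0 ≤ N → c0 * N ≤ ∑ k ∈ Icc 1 N, u k) (hhi : ∀ N : ℕ, ∑ k ∈ Icc 1 N, u k ≤ C * N) :
    ∃ a : ℝ, 0 < a ∧ ∃ K : ℝ, 0 ≤ K ∧ ∀ A X : ℕ, 1 ≤ A → A ≤ X →
      a * Real.log (X / A) - K ≤ ∑ k ∈ Ioc A X, u k / k := by
  obtain ⟨G, hG⟩ := exists_nat_ge (2 * C / c0)
  obtain ⟨G', hG'⟩ : ∃ G' : ℕ, G' = G + 2 := ⟨_, rfl⟩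
  have hG2 : (1 : ℝ) < G' := by
    rw [hG']
    push_cast
    have : (0 : ℝ) ≤ G := Nat.cast_nonneg G
    linarith
  have hG0 : (0 : ℝ) < G' := by linarith
  have hGc : 2 * C ≤ c0 * G' := by
    rw [div_le_iff₀ hc0] at hG
    rw [hG']
    push_cast
    nlinarith
  have hlG : 0 < Real.log G' := Real.log_pos hG2
  have hnn : ∀ k : ℕ, 0 ≤ u k / k := fun k => div_nonneg (hu k) (Nat.cast_nonneg _)
  -- one block
  have hb : ∀ A : ℕ, 1 ≤ A → N0 ≤ A → c0 / 2 ≤ ∑ k ∈ Ioc A (G' * A), u k / k := by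
    intro A hA hAN
    have hA0 : (0 : ℝ) < A := by exact_mod_cast hA
    have hle : A ≤ G' * A := Nat.le_mul_of_pos_left A (by omega)
    have hGA : (0 : ℝ) < ((G' * A : ℕ) : ℝ) := by
      push_cast
      positivity
    have h1 : ∑ k ∈ Ioc A (G' * A), u k / ((G' * A : ℕ) : ℝ) ≤ ∑ k ∈ Ioc A (G' * A), u k / k := by
      refine Finset.sum_le_sum fun k hk => ?_
      rw [mem_Ioc] at hk
      have hk0 : (0 : ℝ) < k := by exact_mod_cast (by omega : 0 < k)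
      exact div_le_div_of_nonneg_left (hu k) hk0 (by exact_mod_cast hk.2)
    refine le_trans ?_ h1
    rw [← Finset.sum_div, le_div_iff₀ hGA]
    have h2 := hlo (G' * A) (by omega)
    have h3 := hhi A
    have h4 : ∑ k ∈ Icc 1 (G' * A), u k = ∑ k ∈ Icc 1 A, u k + ∑ k ∈ Ioc A (G' * A), u k := by
      have e : ∀ n : ℕ, Icc 1 n = Ioc 0 n := fun n => by
        ext x
        simp only [mem_Icc, mem_Ioc]
        omega
      rw [e, e]
      exact Abs_split _ (Nat.zero_le _) hle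
    push_cast at h2 ⊢
    nlinarith
  have hn : ∀ n A : ℕ, 1 ≤ A → N0 ≤ A → n * (c0 / 2) ≤ ∑ k ∈ Ioc A (G' ^ n * A), u k / k := by
    intro n
    induction n with
    | zero =>
      intro A _ _
      simp
    | succ n ih =>
      intro A hA hAN
      have hle : A ≤ G' ^ n * A := Nat.le_mul_of_pos_left A (Nat.pow_pos (by omega))
      have h1 := hb (G' ^ n * A) (by omega) (by omega)
      have h2 := ih A hA hAN
      have e1 : G' ^ (n + 1) * A = G' * (G' ^ n * A) := by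
        rw [pow_succ]
        ring
      rw [e1, Abs_split _ hle (Nat.le_mul_of_pos_left _ (by omega))]
      push_cast
      linarith
  have hmain : ∀ A X : ℕ, 1 ≤ A → N0 ≤ A → A ≤ X →
      c0 / (2 * Real.log G') * Real.log (X / A) - c0 / 2 ≤ ∑ k ∈ Ioc A X, u k / k := by
    intro A X hA hAN hX
    have hA0 : (0 : ℝ) < A := by exact_mod_cast hA
    have hX0 : (0 : ℝ) < X := by exact_mod_cast (by omega : 0 < X)
    have hd : 1 ≤ X / A := (Nat.one_le_div_iff (by omega)).2 hX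
    obtain ⟨n, hnn1⟩ : ∃ n : ℕ, n = Nat.log G' (X / A) := ⟨_, rfl⟩
    have h1 : G' ^ n ≤ X / A := by
      rw [hnn1]
      exact Nat.pow_log_le_self G' (by omega)
    have h2 : X / A < G' ^ (n + 1) := by
      rw [hnn1]
      exact Nat.lt_pow_succ_log_self (by omega) _
    have h3 : G' ^ n * A ≤ X := (Nat.mul_le_mul_right A h1).trans (Nat.div_mul_le_self X A)
    have h4 : X < G' ^ (n + 1) * A := (Nat.div_lt_iff_lt_mul (by omega)).1 h2
    have h5 : Real.log ((X : ℝ) / A) ≤ (n + 1) * Real.log G' := by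
      have h6 : (X : ℝ) / A ≤ (G' : ℝ) ^ (n + 1) := by
        rw [div_le_iff₀ hA0]
        exact_mod_cast h4.le
      have h7 := Real.log_le_log (by positivity) h6
      rw [Real.log_pow] at h7
      push_cast at h7
      exact h7
    have h6 : ∑ k ∈ Ioc A (G' ^ n * A), u k / k ≤ ∑ k ∈ Ioc A X, u k / k :=
      Finset.sum_le_sum_of_subset_of_nonneg (Finset.Ioc_subset_Ioc le_rfl h3) fun k _ _ => hnn k
    refine le_trans ?_ ((hn n A hA hAN).trans h6)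
    have h7 : c0 / (2 * Real.log G') * Real.log (X / A) ≤ c0 / (2 * Real.log G') * ((n + 1) * Real.log G') :=
      mul_le_mul_of_nonneg_left h5 (by positivity)
    have h8 : c0 / (2 * Real.log G') * ((n + 1) * Real.log G') = (n + 1) * (c0 / 2) := by
      field_simp
    linarith
  obtain ⟨N1, hN1⟩ : ∃ N1 : ℕ, N1 = N0 + 1 := ⟨_, rfl⟩
  have hN10 : (0 : ℝ) < N1 := by
    rw [hN1]
    positivity
  have hlN : 0 ≤ Real.log N1 := by
    apply Real.log_nonneg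
    rw [hN1]
    push_cast
    have : (0 : ℝ) ≤ N0 := Nat.cast_nonneg _
    linarith
  have ha : 0 < c0 / (2 * Real.log G') := by positivity
  generalize c0 / (2 * Real.log G') = a at ha hmain
  refine ⟨a, ha, a * Real.log N1 + c0 / 2, by positivity, fun A X hA hX => ?_⟩
  have hA0 : (0 : ℝ) < A := by exact_mod_cast hA
  have hX0 : (0 : ℝ) < X := by exact_mod_cast (by omega : 0 < X)
  by_cases h1 : N1 ≤ A
  · have h2 := hmain A X hA (by omega) hX
    have h3 : 0 ≤ a * Real.log N1 := by positivity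
    linarith
  · push Not at h1
    have hlA : 0 ≤ Real.log A := Real.log_nonneg (by exact_mod_cast hA)
    by_cases h2 : N1 ≤ X
    · have h3 := hmain N1 X (by omega) (by omega) h2
      have h4 : ∑ k ∈ Ioc N1 X, u k / k ≤ ∑ k ∈ Ioc A X, u k / k :=
        Finset.sum_le_sum_of_subset_of_nonneg (Finset.Ioc_subset_Ioc h1.le le_rfl) fun k _ _ => hnn k
      rw [Real.log_div hX0.ne' hN10.ne'] at h3
      rw [Real.log_div hX0.ne' hA0.ne']
      nlinarith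
    · push Not at h2
      have h3 : 0 ≤ ∑ k ∈ Ioc A X, u k / k := Finset.sum_nonneg fun k _ => hnn k
      have h4 : Real.log X ≤ Real.log N1 := Real.log_le_log hX0 (by exact_mod_cast h2.le)
      rw [Real.log_div hX0.ne' hA0.ne']
      nlinarith

private theorem Abs_ind {m r : ℕ} (hr : r < m) {ζ : ℂ} (hζ : IsPrimitiveRoot ζ m) (a : ℕ) :
    ∑ l ∈ range m, ζ ^ (l * (m - r)) * (ζ ^ l) ^ a = if a % m = r then (m : ℂ) else 0 := by
  have e : ∀ l ∈ range m, ζ ^ (l * (m - r)) * (ζ ^ l) ^ a = (ζ ^ (a + (m - r))) ^ l := by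
    intro l _
    rw [← pow_mul, ← pow_mul, ← pow_add]
    congr 1
    ring
  rw [Finset.sum_congr rfl e]
  have hiff : ζ ^ (a + (m - r)) = 1 ↔ a % m = r := by
    rw [hζ.pow_eq_one_iff_dvd]
    constructor
    · rintro ⟨c, hc⟩
      have h1 : (a + (m - r) + r) % m = r % m := by
        rw [hc, add_comm, Nat.add_mul_mod_self_left]
      have h2 : a + (m - r) + r = a + m := by omega
      rw [h2, Nat.add_mod_right, Nat.mod_eq_of_lt hr] at h1
      exact h1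
    · intro h
      have h1 := Nat.div_add_mod a m
      rw [h] at h1
      refine ⟨a / m + 1, ?_⟩
      rw [mul_add, mul_one]
      omega
  by_cases h : a % m = r
  · rw [if_pos h, hiff.2 h]
    simp
  · rw [if_neg h]
    have h1 : ζ ^ (a + (m - r)) ≠ 1 := fun h2 => h (hiff.1 h2)
    rw [geom_sum_eq h1, ← pow_mul, mul_comm, pow_mul, hζ.pow_eq_one, one_pow, sub_self, zero_div]

private theorem Abs_sum {m r : ℕ} (hm : 1 ≤ m) (hr : r < m) {ζ : ℂ} (hζ : IsPrimitiveRoot ζ m) (w : ℕ → ℝ) (o : ℕ → ℕ)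
    (A X : ℕ) :
    (((∑ k ∈ (Ioc A X).filter (fun k => o k % m = r), w k : ℝ) : ℂ)) =
      (1 / (m : ℂ)) * ∑ l ∈ range m, ζ ^ (l * (m - r)) * ∑ k ∈ Ioc A X, (w k : ℂ) * (ζ ^ l) ^ o k := by
  have hm0 : (m : ℂ) ≠ 0 := by exact_mod_cast (by omega : m ≠ 0)
  have e1 : ∑ l ∈ range m, ζ ^ (l * (m - r)) * ∑ k ∈ Ioc A X, (w k : ℂ) * (ζ ^ l) ^ o k =
      ∑ k ∈ Ioc A X, (w k : ℂ) * ∑ l ∈ range m, ζ ^ (l * (m - r)) * (ζ ^ l) ^ o k := by
    simp only [Finset.mul_sum]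
    rw [Finset.sum_comm]
    refine Finset.sum_congr rfl fun k _ => Finset.sum_congr rfl fun l _ => ?_
    ring
  rw [e1, Finset.mul_sum, Finset.sum_filter, Complex.ofReal_sum]
  refine Finset.sum_congr rfl fun k _ => ?_
  rw [Abs_ind hr hζ]
  split_ifs
  · field_simp
  · simp

private theorem Abs_log {A X : ℕ} (hA : 1 ≤ A) (hX : A ≤ X) : 0 ≤ Real.log ((X : ℝ) / A) := by
  apply Real.log_nonneg
  have hA0 : (0 : ℝ) < A := by exact_mod_cast hA
  rw [le_div_iff₀ hA0, one_mul]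
  exact_mod_cast hX

theorem cls_abs {m r : ℕ} (hr : r < m) {w : ℕ → ℝ} {o : ℕ → ℕ}
    (h : ∀ z : ℂ, z ^ m = 1 → z ≠ 1 → ∀ ε : ℝ, 0 < ε → ∃ K : ℝ, 0 ≤ K ∧ ∀ A X : ℕ, 1 ≤ A → A ≤ X →
      ‖∑ k ∈ Ioc A X, (w k : ℂ) * z ^ o k‖ ≤ ε * Real.log (X / A) + K) {ε : ℝ} (hε : 0 < ε) :
    ∃ K : ℝ, 0 ≤ K ∧ ∀ A X : ℕ, 1 ≤ A → A ≤ X →
      |∑ k ∈ (Ioc A X).filter (fun k => o k % m = r), w k - 1 / (m : ℝ) * ∑ k ∈ Ioc A X, w k| ≤
        ε * Real.log (X / A) + K := by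
  have hm : 1 ≤ m := by omega
  have hζ : IsPrimitiveRoot (Complex.exp (2 * Real.pi * Complex.I / m)) m :=
    Complex.isPrimitiveRoot_exp m (by omega)
  generalize Complex.exp (2 * Real.pi * Complex.I / m) = ζ at hζ
  have hm0 : (0 : ℝ) < m := by exact_mod_cast hm
  have hm1 : (1 : ℝ) ≤ m := by exact_mod_cast hm
  have hn : ‖ζ‖ = 1 := Complex.norm_eq_one_of_pow_eq_one hζ.pow_eq_one (by omega)
  have h1 : ∀ l : ℕ, ∃ K : ℝ, 0 ≤ K ∧ (l ∈ (range m).erase 0 → ∀ A X : ℕ, 1 ≤ A → A ≤ X →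
      ‖∑ k ∈ Ioc A X, (w k : ℂ) * (ζ ^ l) ^ o k‖ ≤ ε * Real.log (X / A) + K) := by
    intro l
    by_cases hl : l ∈ (range m).erase 0
    · rw [Finset.mem_erase, Finset.mem_range] at hl
      have h2 : (ζ ^ l) ^ m = 1 := by
        rw [← pow_mul, mul_comm, pow_mul, hζ.pow_eq_one, one_pow]
      have h3 : ζ ^ l ≠ 1 := by
        intro h
        rw [hζ.pow_eq_one_iff_dvd] at h
        exact hl.1 (Nat.eq_zero_of_dvd_of_lt h hl.2)
      obtain ⟨K, hK, h4⟩ := h _ h2 h3 ε hε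
      exact ⟨K, hK, fun _ => h4⟩
    · exact ⟨0, le_rfl, fun h => absurd h hl⟩
  choose K hK0 hK using h1
  refine ⟨∑ l ∈ (range m).erase 0, K l, Finset.sum_nonneg fun l _ => hK0 l, fun A X hA hX => ?_⟩
  have hl := Abs_log hA hX
  have h0 : (((∑ k ∈ Ioc A X, w k : ℝ)) : ℂ) = ∑ k ∈ Ioc A X, (w k : ℂ) * (ζ ^ 0) ^ o k := by
    rw [Complex.ofReal_sum]
    simp
  have e1 : (((∑ k ∈ (Ioc A X).filter (fun k => o k % m = r), w k -
      1 / (m : ℝ) * ∑ k ∈ Ioc A X, w k : ℝ)) : ℂ) =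
      (1 / (m : ℂ)) * ∑ l ∈ (range m).erase 0, ζ ^ (l * (m - r)) * ∑ k ∈ Ioc A X, (w k : ℂ) * (ζ ^ l) ^ o k := by
    rw [Complex.ofReal_sub, Abs_sum hm hr hζ, Complex.ofReal_mul, h0,
      ← Finset.add_sum_erase (range m) _ (Finset.mem_range.2 (by omega : 0 < m))]
    rw [zero_mul, pow_zero, one_mul]
    push_cast
    ring
  have h2 : |∑ k ∈ (Ioc A X).filter (fun k => o k % m = r), w k - 1 / (m : ℝ) * ∑ k ∈ Ioc A X, w k| =
      ‖(1 / (m : ℂ)) * ∑ l ∈ (range m).erase 0, ζ ^ (l * (m - r)) * ∑ k ∈ Ioc A X, (w k : ℂ) * (ζ ^ l) ^ o k‖ := by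
    rw [← e1, Complex.norm_real, Real.norm_eq_abs]
  rw [h2, norm_mul, norm_div, norm_one, Complex.norm_natCast]
  have h3 : ‖∑ l ∈ (range m).erase 0, ζ ^ (l * (m - r)) * ∑ k ∈ Ioc A X, (w k : ℂ) * (ζ ^ l) ^ o k‖ ≤
      ∑ l ∈ (range m).erase 0, (ε * Real.log (X / A) + K l) := by
    refine (norm_sum_le _ _).trans (Finset.sum_le_sum fun l hl => ?_)
    rw [norm_mul, norm_pow, hn, one_pow, one_mul]
    exact hK l hl A X hA hX
  rw [Finset.sum_add_distrib, Finset.sum_const, nsmul_eq_mul] at h3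
  have h4 : (((range m).erase 0).card : ℝ) ≤ m := by
    have : ((range m).erase 0).card ≤ m := by
      refine (Finset.card_erase_le).trans ?_
      rw [card_range]
    exact_mod_cast this
  have h5 : 0 ≤ ∑ l ∈ (range m).erase 0, K l := Finset.sum_nonneg fun l _ => hK0 l
  have h6 : 0 ≤ ε * Real.log (X / A) := mul_nonneg hε.le hl
  have h7 : (((range m).erase 0).card : ℝ) * (ε * Real.log (X / A)) ≤ m * (ε * Real.log (X / A)) :=
    mul_le_mul_of_nonneg_right h4 h6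
  have h8 : (∑ l ∈ (range m).erase 0, K l) ≤ m * ∑ l ∈ (range m).erase 0, K l :=
    le_mul_of_one_le_left h5 hm1
  rw [div_mul_eq_mul_div, one_mul, div_le_iff₀ hm0]
  linarith

theorem pos_abs {u : ℕ → ℝ} (hu : ∀ k, 0 ≤ u k) {c0 C : ℝ} (hc0 : 0 < c0) (hC : 0 < C) {N0 : ℕ}
    (hlo : ∀ N : ℕ, N0 ≤ N → c0 * N ≤ ∑ k ∈ Icc 1 N, u k) (hhi : ∀ N : ℕ, ∑ k ∈ Icc 1 N, u k ≤ C * N)
    {m r : ℕ} (hr : r < m) {o : ℕ → ℕ}
    (h : ∀ z : ℂ, z ^ m = 1 → z ≠ 1 → ∀ ε : ℝ, 0 < ε → ∃ K : ℝ, 0 ≤ K ∧ ∀ A X : ℕ, 1 ≤ A → A ≤ X →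
      ‖∑ k ∈ Ioc A X, ((u k / k : ℝ) : ℂ) * z ^ o k‖ ≤ ε * Real.log (X / A) + K) :
    ∃ κ : ℝ, 0 < κ ∧ ∃ X0 : ℕ, ∀ X : ℕ, X0 ≤ X → κ * X ≤ ∑ k ∈ (Icc 1 X).filter (fun k => o k % m = r), u k := by
  have hm0 : (0 : ℝ) < m := by exact_mod_cast (by omega : 0 < m)
  obtain ⟨a, ha, K, hK, hlow⟩ := low_abs hu hc0 hC hlo hhi
  obtain ⟨K2, hK2, hcls⟩ := cls_abs hr h (show 0 < a / (2 * m) by positivity)
  obtain ⟨G, hG⟩ : ∃ G : ℕ, (K / m + K2 + 1) / (a / (2 * m)) ≤ Real.log G ∧ 1 ≤ G := by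
    have h1 : Tendsto (fun n : ℕ => Real.log (n : ℝ)) atTop atTop :=
      Real.tendsto_log_atTop.comp tendsto_natCast_atTop_atTop
    exact ((h1.eventually_ge_atTop _).and (eventually_ge_atTop 1)).exists
  obtain ⟨hG1, hG2⟩ := hG
  have hG0 : (0 : ℝ) < G := by exact_mod_cast hG2
  refine ⟨1 / (2 * G), by positivity, G, fun X hX => ?_⟩
  obtain ⟨A, hA⟩ : ∃ A : ℕ, A = X / G := ⟨_, rfl⟩
  have hA1 : 1 ≤ A := by
    rw [hA]
    exact (Nat.one_le_div_iff (by omega)).2 hX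
  have hA2 : G * A ≤ X := by
    rw [hA]
    exact Nat.mul_div_le X G
  have hA3 : X < G * (A + 1) := by
    rw [hA]
    exact Nat.lt_mul_div_succ X (by omega)
  have hA0 : (0 : ℝ) < A := by exact_mod_cast hA1
  have h1 := hlow A (G * A) hA1 (Nat.le_mul_of_pos_left A (by omega))
  have h2 := hcls A (G * A) hA1 (Nat.le_mul_of_pos_left A (by omega))
  have e1 : (((G * A : ℕ) : ℝ)) / A = G := by
    push_cast
    field_simp
  rw [e1] at h1 h2
  have h3 := (abs_le.1 h2).1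
  rw [div_le_iff₀ (by positivity)] at hG1
  have h4 : 1 ≤ ∑ k ∈ (Ioc A (G * A)).filter (fun k => o k % m = r), u k / k := by
    have h5 : 1 / (m : ℝ) * (a * Real.log G - K) ≤ 1 / (m : ℝ) * ∑ k ∈ Ioc A (G * A), u k / k :=
      mul_le_mul_of_nonneg_left h1 (by positivity)
    have h6 : 1 / (m : ℝ) * (a * Real.log G - K) = 2 * (Real.log G * (a / (2 * m))) - K / m := by
      field_simp
    have h7 : a / (2 * m) * Real.log G = Real.log G * (a / (2 * m)) := mul_comm _ _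
    linarith
  have h5 : ∑ k ∈ (Ioc A (G * A)).filter (fun k => o k % m = r), u k / k ≤
      ∑ k ∈ (Ioc A (G * A)).filter (fun k => o k % m = r), u k / A := by
    refine Finset.sum_le_sum fun k hk => ?_
    have h6 := (mem_Ioc.1 (mem_filter.1 hk).1).1
    exact div_le_div_of_nonneg_left (hu k) hA0 (by exact_mod_cast h6.le)
  rw [← Finset.sum_div] at h5
  have h6 : (A : ℝ) ≤ ∑ k ∈ (Ioc A (G * A)).filter (fun k => o k % m = r), u k := by
    have h7 := h4.trans h5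
    rwa [le_div_iff₀ hA0, one_mul] at h7
  have h7 : ∑ k ∈ (Ioc A (G * A)).filter (fun k => o k % m = r), u k ≤
      ∑ k ∈ (Icc 1 X).filter (fun k => o k % m = r), u k := by
    refine Finset.sum_le_sum_of_subset_of_nonneg ?_ fun _ _ _ => hu _
    refine Finset.filter_subset_filter _ fun k hk => ?_
    rw [mem_Ioc] at hk
    rw [mem_Icc]
    omega
  refine le_trans ?_ (h6.trans h7)
  have h8 : (X : ℝ) ≤ G * (A + 1) := by exact_mod_cast hA3.le
  have h9 : (1 : ℝ) ≤ A := by exact_mod_cast hA1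
  rw [div_mul_eq_mul_div, one_mul, div_le_iff₀ (by positivity)]
  nlinarith

end Pool.Agent.Lib.MP_d57abb_nt.GT
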