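import Pool.Agent.Lib.MP_d57abb_nt.GT.Defs
import Pool.Agent.Lib.MP_d57abb_nt.GA.TA.Cells
import Pool.Agent.Lib.MP_d57abb_nt.GA.TS.FrM

/-!
# from cells to the weighted number of `k`

* `cell_pt`: `s ≡ co C b (mod M)` with coordinates in `[1, M]`; `em C s ≡ em C (co C b) = b` (`em_co`).
* `cell_fr`: `farey` for `a = em C s`, `b = em C s'`: adjacent `v, w` with different signs in the hull.  `co C v = l s + m s'` (linear in `pp, qq`; `pp, qq` are injective on real vectors as `al ≠ be`), `l + m ≤ 1`, `l + m > 0` as `v ≠ 0`: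
  the coordinates are `> 0` and `≤ M`, and they are integers.
* `cells_tc`: to every cell `C` of `Z` choose `s, s'` and map it to the frame `(em C s, em C s')` of `GG (1/c) c X`, with `c = 8 M`, `X ≥ 8 M² A²`.  Sizes: `A < ll C.1 + ll C.2 ≤ ll (em C s) ≤ 2 M A` (`ll_em`, `mem_CC`); `kk_bounds`, `nm_bounds`.
  Injective: `em C s` is primitive with `ll > A` and in the cone of `C` (`InC_em`), `cell_unique`.  Then `sum_wn`, `tc_wn`.
-/

namespace Pool.Agent.Lib.MP_d57abb_nt.GT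

open Finset GA.TA GA.TZ GA.TS

/-- the square of the box of coordinates -/
def In (M : ℕ) (s : ℤ × ℤ) : Prop := (1 ≤ s.1 ∧ s.1 ≤ M) ∧ 1 ≤ s.2 ∧ s.2 ≤ M

attribute [local instance] lab0

theorem cell_pt {M : ℕ} (hM : 0 < M) {C : (ℤ × ℤ) × (ℤ × ℤ)} (hC : dt C.1 C.2 = 1) (b : ℤ × ℤ) :
    ∃ s : ℤ × ℤ, In M s ∧ Cg M (em C s) b := by
  have hMz : (0 : ℤ) < M := by exact_mod_cast hM
  obtain ⟨c, hc⟩ : ∃ c : ℤ × ℤ, c = co C b := ⟨_, rfl⟩
  have h1 : ∀ x : ℤ, (1 ≤ (x - 1) % (M : ℤ) + 1 ∧ (x - 1) % (M : ℤ) + 1 ≤ M) ∧ (M : ℤ) ∣ ((x - 1) % (M : ℤ) + 1) - x := by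
    intro x
    have h2 := Int.emod_nonneg (x - 1) hMz.ne'
    have h3 := Int.emod_lt_of_pos (x - 1) hMz
    refine ⟨⟨by omega, by omega⟩, ?_⟩
    have h4 := Int.emod_add_mul_ediv (x - 1) (M : ℤ)
    refine ⟨-((x - 1) / (M : ℤ)), ?_⟩
    linarith
  obtain ⟨⟨a1, a2⟩, k1, hk1⟩ := h1 c.1
  obtain ⟨⟨a3, a4⟩, k2, hk2⟩ := h1 c.2
  refine ⟨((c.1 - 1) % (M : ℤ) + 1, (c.2 - 1) % (M : ℤ) + 1), ⟨⟨a1, a2⟩, a3, a4⟩, ?_⟩
  have hb : em C c = b := by rw [hc, em_co hC]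
  have hb1 : c.1 * C.1.1 + c.2 * C.2.1 = b.1 := congrArg Prod.fst hb
  have hb2 : c.1 * C.1.2 + c.2 * C.2.2 = b.2 := congrArg Prod.snd hb
  constructor
  · show (M : ℤ) ∣ ((c.1 - 1) % (M : ℤ) + 1) * C.1.1 + ((c.2 - 1) % (M : ℤ) + 1) * C.2.1 - b.1
    refine ⟨k1 * C.1.1 + k2 * C.2.1, ?_⟩
    rw [← hb1]
    linear_combination C.1.1 * hk1 + C.2.1 * hk2
  · show (M : ℤ) ∣ ((c.1 - 1) % (M : ℤ) + 1) * C.1.2 + ((c.2 - 1) % (M : ℤ) + 1) * C.2.2 - b.2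
    refine ⟨k1 * C.1.2 + k2 * C.2.2, ?_⟩
    rw [← hb2]
    linear_combination C.1.2 * hk1 + C.2.2 * hk2

private theorem Cell_pp (C : (ℤ × ℤ) × (ℤ × ℤ)) (s : ℤ × ℤ) : pp (em C s) = s.1 * pp C.1 + s.2 * pp C.2 := by
  unfold GA.TA.em
  rw [pp_add, pp_smul, pp_smul]

private theorem Cell_qq (C : (ℤ × ℤ) × (ℤ × ℤ)) (s : ℤ × ℤ) : qq (em C s) = s.1 * qq C.1 + s.2 * qq C.2 := by
  unfold GA.TA.em
  rw [qq_add, qq_smul, qq_smul]

private theorem Cell_In {M : ℕ} {C : (ℤ × ℤ) × (ℤ × ℤ)} (hC : Fr C) {s s' : ℤ × ℤ} (hs : In M s) (hs' : In M s')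
    {v : ℤ × ℤ} (hv : TP v) (h : Hull (em C s) (em C s') v) : In M (co C v) := by
  obtain ⟨l, m, h1, h2, h3, h4, h5⟩ := h
  obtain ⟨⟨a1, a2⟩, a3, a4⟩ := hs
  obtain ⟨⟨b1, b2⟩, b3, b4⟩ := hs'
  obtain ⟨t, ht⟩ : ∃ t : ℤ × ℤ, t = co C v := ⟨_, rfl⟩
  have hvt : em C t = v := by rw [ht, em_co hC.2.2]
  have hD := dt_eq C.1 C.2
  rw [hC.2.2, Int.cast_one, one_mul] at hD
  have hD0 : pp C.2 * qq C.1 - pp C.1 * qq C.2 ≠ 0 := by
    rw [← hD]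
    exact (Real.sqrt_pos.2 (by norm_num)).ne'
  have e1 : (t.1 - l * s.1 - m * s'.1) * pp C.1 + (t.2 - l * s.2 - m * s'.2) * pp C.2 = 0 := by
    rw [← hvt, Cell_pp, Cell_pp, Cell_pp] at h4
    linear_combination h4
  have e2 : (t.1 - l * s.1 - m * s'.1) * qq C.1 + (t.2 - l * s.2 - m * s'.2) * qq C.2 = 0 := by
    rw [← hvt, Cell_qq, Cell_qq, Cell_qq] at h5
    linear_combination h5
  have f1 : (t.1 : ℝ) = l * s.1 + m * s'.1 := by
    have h6 : (t.1 - l * s.1 - m * s'.1) * (pp C.2 * qq C.1 - pp C.1 * qq C.2) = 0 := by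
      linear_combination pp C.2 * e2 - qq C.2 * e1
    have h7 := (mul_eq_zero.1 h6).resolve_right hD0
    linarith
  have f2 : (t.2 : ℝ) = l * s.2 + m * s'.2 := by
    have h6 : (t.2 - l * s.2 - m * s'.2) * (pp C.2 * qq C.1 - pp C.1 * qq C.2) = 0 := by
      linear_combination qq C.1 * e1 - pp C.1 * e2
    have h7 := (mul_eq_zero.1 h6).resolve_right hD0
    linarith
  have hlm : 0 < l + m := by
    rcases (add_nonneg h1 h2).eq_or_lt with h6 | h6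
    · exfalso
      have h7 : l = 0 := by linarith
      have h8 : m = 0 := by linarith
      have h9 := hv.1
      rw [h4, h7, h8] at h9
      simp at h9
    · exact h6
  have c1 : (1 : ℝ) ≤ s.1 := by exact_mod_cast a1
  have c2 : (s.1 : ℝ) ≤ M := by exact_mod_cast a2
  have c3 : (1 : ℝ) ≤ s.2 := by exact_mod_cast a3
  have c4 : (s.2 : ℝ) ≤ M := by exact_mod_cast a4
  have d1 : (1 : ℝ) ≤ s'.1 := by exact_mod_cast b1
  have d2 : (s'.1 : ℝ) ≤ M := by exact_mod_cast b2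
  have d3 : (1 : ℝ) ≤ s'.2 := by exact_mod_cast b3
  have d4 : (s'.2 : ℝ) ≤ M := by exact_mod_cast b4
  have hM0 : (0 : ℝ) ≤ M := Nat.cast_nonneg _
  have g : ∀ x y z : ℝ, 1 ≤ x → x ≤ M → 1 ≤ y → y ≤ M → z = l * x + m * y → 0 < z ∧ z ≤ M := by
    intro x y z x1 x2 y1 y2 hz
    constructor
    · have := mul_le_mul_of_nonneg_left x1 h1
      have := mul_le_mul_of_nonneg_left y1 h2
      linarith
    · have := mul_le_mul_of_nonneg_left x2 h1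
      have := mul_le_mul_of_nonneg_left y2 h2
      have := mul_le_mul_of_nonneg_right h3 hM0
      linarith
  obtain ⟨g1, g2⟩ := g _ _ _ c1 c2 d1 d2 f1
  obtain ⟨g3, g4⟩ := g _ _ _ c3 c4 d3 d4 f2
  rw [← ht]
  have k1 : 0 < t.1 := by exact_mod_cast g1
  have k2 : t.1 ≤ M := by exact_mod_cast g2
  have k3 : 0 < t.2 := by exact_mod_cast g3
  have k4 : t.2 ≤ M := by exact_mod_cast g4
  exact ⟨⟨k1, k2⟩, k3, k4⟩

theorem Cell_Qd {M : ℕ} {C : (ℤ × ℤ) × (ℤ × ℤ)} (hC : Fr C) {s : ℤ × ℤ} (hs : In M s) : Qd (em C s) := by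
  refine Qd_em hC (by have := hs.1.1; omega) (by have := hs.2.1; omega) ?_
  intro h
  have h1 := hs.1.1
  rw [h] at h1
  exact absurd h1 (by decide)

theorem cell_fr {g : ℕ → ℤ} (hg : CM g) {M : ℕ} {C : (ℤ × ℤ) × (ℤ × ℤ)} (hC : Fr C) {s s' : ℤ × ℤ} (hs : In M s) (hs' : In M s')
    (hne : sg g (em C s) ≠ sg g (em C s')) :
    ∃ t t' : ℤ × ℤ, In M t ∧ In M t' ∧ dt t t' = 1 ∧ sg g (em C t) ≠ sg g (em C t') := by
  obtain ⟨v, w, hv, hw, hvw, hs1, h1, h2⟩ := farey hg (tp_of_Qd (Cell_Qd hC hs)) (tp_of_Qd (Cell_Qd hC hs')) hne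
  refine ⟨co C v, co C w, Cell_In hC hs hs' hv h1, Cell_In hC hs hs' hw h2, ?_, ?_⟩
  · have h3 := dt_em C (co C v) (co C w)
    rw [em_co hC.2.2, em_co hC.2.2, hC.2.2, mul_one] at h3
    rw [← h3]
    exact hvw
  · rw [em_co hC.2.2, em_co hC.2.2]
    exact hs1

theorem Cell_ll {M A : ℕ} {C : (ℤ × ℤ) × (ℤ × ℤ)} (hC : C ∈ CC A) {s : ℤ × ℤ} (hs : In M s) :
    (A : ℤ) < ll (em C s) ∧ ll (em C s) ≤ 2 * M * A := by
  obtain ⟨hF, h1, h2, h3⟩ := mem_CC.1 hC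
  obtain ⟨⟨a1, a2⟩, a3, a4⟩ := hs
  have p1 := hF.1.ll_pos
  have p2 := hF.2.1.ll_pos
  rw [ll_em]
  have hM0 : (0 : ℤ) ≤ M := by positivity
  constructor
  · have k1 := mul_le_mul_of_nonneg_right a1 p1.le
    have k2 := mul_le_mul_of_nonneg_right a3 p2.le
    linarith
  · have k1 : s.1 * ll C.1 ≤ (M : ℤ) * A := mul_le_mul a2 h1 p1.le hM0
    have k2 : s.2 * ll C.2 ≤ (M : ℤ) * A := mul_le_mul a4 h2 p2.le hM0
    linarith

theorem Cell_mem {M : ℕ} (hM : 0 < M) {A : ℕ} (hA : 1 ≤ A) {X : ℕ} (hX : 8 * M ^ 2 * A ^ 2 ≤ X) {v w : ℤ × ℤ}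
    (q1 : Qd v) (q2 : Qd w) (hdt : dt v w = 1) (a1 : (A : ℤ) < ll v) (a2 : ll v ≤ 2 * M * A) (b1 : (A : ℤ) < ll w)
    (b2 : ll w ≤ 2 * M * A) : (v, w) ∈ GG (1 / (8 * (M : ℝ))) (8 * M) X := by
  have hM0 : (0 : ℝ) < M := by exact_mod_cast hM
  have hMz : (1 : ℤ) ≤ M := by exact_mod_cast hM
  have hAz : (1 : ℤ) ≤ A := by exact_mod_cast hA
  have hXz : 8 * (M : ℤ) ^ 2 * (A : ℤ) ^ 2 ≤ X := by exact_mod_cast hX
  obtain ⟨k1, k2⟩ := kk_bounds q1 q2 (m := 1) (by norm_num) hdt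
  obtain ⟨n1, n2⟩ := nm_bounds q1
  obtain ⟨a, ha⟩ : ∃ a : ℤ, a = ll v := ⟨_, rfl⟩
  obtain ⟨b, hb⟩ : ∃ b : ℤ, b = ll w := ⟨_, rfl⟩
  rw [← ha] at a1 a2 k1 k2 n1 n2
  rw [← hb] at b1 b2 k1 k2
  have hab : (2 : ℤ) * 2 ≤ a * b := mul_le_mul (by linarith) (by linarith) (by norm_num) (by linarith)
  have hA2 : a ≤ 2 * M * b := a2.trans (mul_le_mul_of_nonneg_left b1.le (by positivity))
  have hB2 : b ≤ 2 * M * a := b2.trans (mul_le_mul_of_nonneg_left a1.le (by positivity))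
  have hAA : a * b ≤ (2 * M * A) * (2 * M * A) := mul_le_mul a2 b2 (by linarith) (by positivity)
  have h5 : a * a ≤ 2 * M * (a * b) := by
    have := mul_le_mul_of_nonneg_left hA2 (show 0 ≤ a by linarith)
    linarith
  have h6 : a * b ≤ 2 * M * (a * a) := by
    have := mul_le_mul_of_nonneg_left hB2 (show 0 ≤ a by linarith)
    linarith
  have h7 : nm v ≤ 8 * M * kk v w := by
    have h8 : 2 * M * (a * b) ≤ 2 * M * (2 * kk v w) := mul_le_mul_of_nonneg_left (by linarith) (by positivity)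
    have h9 : 0 ≤ (M : ℤ) * kk v w := mul_nonneg (by linarith) (by linarith)
    nlinarith
  have h8 : kk v w ≤ 8 * M * nm v := by
    have h9 : 2 * M * (a * a) ≤ 2 * M * nm v := mul_le_mul_of_nonneg_left (by linarith) (by positivity)
    have h10 : 0 ≤ (M : ℤ) * nm v := mul_nonneg (by linarith) (by nlinarith)
    linarith
  refine mem_GG.2 ⟨q1, q2, hdt, by linarith, ?_, ?_, ?_⟩
  · show kk v w ≤ (X : ℤ)
    have h9 : (2 * (M : ℤ) * A) * (2 * M * A) = 4 * ((M : ℤ) ^ 2 * (A : ℤ) ^ 2) := by ring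
    have h10 : 0 ≤ (M : ℤ) ^ 2 * (A : ℤ) ^ 2 := by positivity
    linarith
  · have h9 : (kk v w : ℝ) ≤ 8 * M * nm v := by exact_mod_cast h8
    show 1 / (8 * (M : ℝ)) * (kk v w : ℝ) ≤ (nm v : ℝ)
    rw [div_mul_eq_mul_div, one_mul, div_le_iff₀ (by positivity)]
    linarith
  · have h9 : (nm v : ℝ) ≤ 8 * M * kk v w := by exact_mod_cast h7
    exact h9

open Classical in
theorem cells_tc {M : ℕ} (hM : 0 < M) {A : ℕ} (hA : 1 ≤ A) {X : ℕ} (hX : 8 * M ^ 2 * A ^ 2 ≤ X) (Z : Finset ((ℤ × ℤ) × (ℤ × ℤ)))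
    (hZ : Z ⊆ CC A) (P : ℕ → Prop) [DecidablePred P] (h : ∀ C ∈ Z, ∃ t t' : ℤ × ℤ, In M t ∧ In M t' ∧ dt t t' = 1 ∧ P (kk (em C t) (em C t')).toNat) :
    (Z.card : ℝ) ≤ ∑ k ∈ (Icc 1 X).filter P, (tc (8 * M) k : ℝ) := by
  choose! t t' ht ht' hd hP using h
  have hM0 : (0 : ℝ) < M := by exact_mod_cast hM
  have hcard : (∑ k ∈ (Icc 1 X).filter P, (tc (8 * M) k : ℝ)) =
      (((GG (1 / (8 * (M : ℝ))) (8 * M) X).filter (fun x => P (kk x.1 x.2).toNat)).card : ℝ) := by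
    rw [← sum_wn (1 / (8 * (M : ℝ))) (8 * M) X P, Nat.cast_sum]
    refine Finset.sum_congr rfl fun k _ => ?_
    rw [tc_wn (8 * (M : ℝ)) (by positivity) k]
  rw [hcard]
  have hle : Z.card ≤ ((GG (1 / (8 * (M : ℝ))) (8 * M) X).filter (fun x => P (kk x.1 x.2).toNat)).card := by
    refine Finset.card_le_card_of_injOn (fun C => (em C (t C), em C (t' C))) ?_ ?_
    · intro C hC
      have hC' := Finset.mem_coe.1 hC
      have hCC := hZ hC'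
      obtain ⟨hF, -⟩ := mem_CC.1 hCC
      obtain ⟨a1, a2⟩ := Cell_ll hCC (ht C hC')
      obtain ⟨b1, b2⟩ := Cell_ll hCC (ht' C hC')
      have hdt : dt (em C (t C)) (em C (t' C)) = 1 := by
        rw [dt_em, hF.2.2, mul_one]
        exact hd C hC'
      exact Finset.mem_coe.2 (Finset.mem_filter.2
        ⟨Cell_mem hM hA hX (Cell_Qd hF (ht C hC')) (Cell_Qd hF (ht' C hC')) hdt a1 a2 b1 b2, hP C hC'⟩)
    · intro C hC C' hC' he
      have hC1 := Finset.mem_coe.1 hC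
      have hC2 := Finset.mem_coe.1 hC'
      have he1 : em C (t C) = em C' (t C') := congrArg Prod.fst he
      obtain ⟨hF, -⟩ := mem_CC.1 (hZ hC1)
      obtain ⟨hF', -⟩ := mem_CC.1 (hZ hC2)
      obtain ⟨a1, -⟩ := Cell_ll (hZ hC1) (ht C hC1)
      have hcop : IsCoprime (em C (t C)).1 (em C (t C)).2 := by
        rw [prim_em hF.2.2]
        have h1 := hd C hC1
        unfold dt at h1
        exact ⟨(t' C).2, -(t' C).1, by linarith⟩
      refine cell_unique (hZ hC1) (hZ hC2) (Cell_Qd hF (ht C hC1)) hcop a1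
        (InC_em hF.2.2 (by have := (ht C hC1).1.1; omega) (by have := (ht C hC1).2.1; omega)) ?_
      rw [he1]
      exact InC_em hF'.2.2 (by have := (ht C' hC2).1.1; omega) (by have := (ht C' hC2).2.1; omega)
  exact_mod_cast hle

end Pool.Agent.Lib.MP_d57abb_nt.GT
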