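import Pool.Agent.Lib.MP_d57abb_nt.GT.Defs

/-!
# the vectors of a box in a residue class divisible by a prime element

`u = p * v`, `v = star p * u / N p`; with `p = x0 + y0 α`, `x0, y0 ≥ 0`, `x0², y0² ≤ N p = l`: `v.re = ((x0 + 3 y0) u1 + y0 u2) / l ∈ [0, 5 T / √l]`, `v.im = (x0 u2 - y0 u1) / l ∈ [-T/√l, T/√l]`; and `p v ≡ p v' (mod M)` gives
`l (v - v') ≡ 0`, `v ≡ v'` (`l` prime to `M`).  The number of integers of an interval of length `L` in a class modulo `M` is at most `L / M + 1`.  With `t = T / (M √l)`: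
`(5 t + 1)(2 t + 1) ≤ 14 t² + 5`.
-/

namespace Pool.Agent.Lib.MP_d57abb_nt.GT

open Finset MR

/-- the integers of an interval in one class modulo `M` -/
theorem ap_card {S : Finset ℤ} {M : ℕ} (hM : 0 < M) {lo hi : ℝ} (hlh : lo ≤ hi)
    (h : ∀ x ∈ S, lo ≤ (x : ℝ) ∧ (x : ℝ) ≤ hi) (hc : ∀ x ∈ S, ∀ y ∈ S, (M : ℤ) ∣ x - y) :
    (S.card : ℝ) ≤ (hi - lo) / M + 1 := by
  have hM0 : (0 : ℝ) < M := by exact_mod_cast hM
  have hMz : (0 : ℤ) < M := by exact_mod_cast hM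
  have h0 : 0 ≤ (hi - lo) / M := div_nonneg (by linarith) hM0.le
  rcases S.eq_empty_or_nonempty with hS | hS
  · rw [hS]
    simp only [Finset.card_empty, Nat.cast_zero]
    linarith
  · obtain ⟨m, hm, hmin⟩ : ∃ m ∈ S, ∀ x ∈ S, m ≤ x := ⟨S.min' hS, S.min'_mem hS, fun x hx => S.min'_le x hx⟩
    have h1 : S.card ≤ (Icc (0 : ℤ) ⌊(hi - lo) / M⌋).card := by
      refine Finset.card_le_card_of_injOn (fun x => (x - m) / M) ?_ ?_
      · intro x hx
        have hx' := Finset.mem_coe.1 hx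
        refine Finset.mem_coe.2 (Finset.mem_Icc.2 ⟨Int.ediv_nonneg (by linarith [hmin x hx']) hMz.le, ?_⟩)
        obtain ⟨k, hk⟩ := hc x hx' m hm
        show (x - m) / (M : ℤ) ≤ _
        rw [hk, Int.mul_ediv_cancel_left _ hMz.ne', Int.le_floor, le_div_iff₀ hM0]
        have h2 : ((x - m : ℤ) : ℝ) = M * k := by
          rw [hk]
          push_cast
          ring
        push_cast at h2
        have h3 := (h x hx').2
        have h4 := (h m hm).1
        linarith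
      · intro x hx y hy hxy
        have hx' := Finset.mem_coe.1 hx
        have hy' := Finset.mem_coe.1 hy
        obtain ⟨k, hk⟩ := hc x hx' m hm
        obtain ⟨k', hk'⟩ := hc y hy' m hm
        have hxy' : (x - m) / (M : ℤ) = (y - m) / (M : ℤ) := hxy
        rw [hk, hk', Int.mul_ediv_cancel_left _ hMz.ne', Int.mul_ediv_cancel_left _ hMz.ne'] at hxy'
        rw [← hxy'] at hk'
        linarith
    rw [Int.card_Icc] at h1
    have h2 : (0 : ℤ) ≤ ⌊(hi - lo) / M⌋ := Int.floor_nonneg.2 h0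
    have h3 : (S.card : ℤ) ≤ ⌊(hi - lo) / M⌋ + 1 := by omega
    have h4 : (S.card : ℝ) ≤ ((⌊(hi - lo) / M⌋ : ℤ) : ℝ) + 1 := by exact_mod_cast h3
    have h5 := Int.floor_le ((hi - lo) / (M : ℝ))
    linarith

/-- the vectors of a rectangle in one class modulo `M` -/
theorem box_card {S : Finset (ℤ × ℤ)} {M : ℕ} (hM : 0 < M) {lo hi lo' hi' : ℝ} (hlh : lo ≤ hi) (hlh' : lo' ≤ hi')
    (h : ∀ x ∈ S, (lo ≤ (x.1 : ℝ) ∧ (x.1 : ℝ) ≤ hi) ∧ lo' ≤ (x.2 : ℝ) ∧ (x.2 : ℝ) ≤ hi')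
    (hc : ∀ x ∈ S, ∀ y ∈ S, (M : ℤ) ∣ x.1 - y.1 ∧ (M : ℤ) ∣ x.2 - y.2) :
    (S.card : ℝ) ≤ ((hi - lo) / M + 1) * ((hi' - lo') / M + 1) := by
  classical
  have hM0 : (0 : ℝ) < M := by exact_mod_cast hM
  have h1 : S.card ≤ ((S.image Prod.fst) ×ˢ (S.image Prod.snd)).card :=
    Finset.card_le_card fun x hx => Finset.mem_product.2 ⟨Finset.mem_image_of_mem _ hx, Finset.mem_image_of_mem _ hx⟩
  rw [Finset.card_product] at h1
  have h2 : ((S.image Prod.fst).card : ℝ) ≤ (hi - lo) / M + 1 := by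
    refine ap_card hM hlh ?_ ?_
    · intro x hx
      obtain ⟨y, hy, rfl⟩ := Finset.mem_image.1 hx
      exact (h y hy).1
    · intro x hx x' hx'
      obtain ⟨y, hy, rfl⟩ := Finset.mem_image.1 hx
      obtain ⟨y', hy', rfl⟩ := Finset.mem_image.1 hx'
      exact (hc y hy y' hy').1
  have h3 : ((S.image Prod.snd).card : ℝ) ≤ (hi' - lo') / M + 1 := by
    refine ap_card hM hlh' ?_ ?_
    · intro x hx
      obtain ⟨y, hy, rfl⟩ := Finset.mem_image.1 hx
      exact (h y hy).2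
    · intro x hx x' hx'
      obtain ⟨y, hy, rfl⟩ := Finset.mem_image.1 hx
      obtain ⟨y', hy', rfl⟩ := Finset.mem_image.1 hx'
      exact (hc y hy y' hy').2
  have h4 : (S.card : ℝ) ≤ ((S.image Prod.fst).card : ℝ) * ((S.image Prod.snd).card : ℝ) := by exact_mod_cast h1
  refine h4.trans (mul_le_mul h2 h3 (Nat.cast_nonneg _) ?_)
  have : 0 ≤ (hi - lo) / M := div_nonneg (by linarith) hM0.le
  linarith

private theorem CntD_mem {T : ℕ} {u : ℤ × ℤ} (h : u ∈ GA.TA.Bx T) : (0 ≤ u.1 ∧ u.1 ≤ T) ∧ 0 ≤ u.2 ∧ u.2 ≤ T := by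
  unfold GA.TA.Bx at h
  rw [Finset.mem_product, Finset.mem_Icc, Finset.mem_Icc] at h
  exact h

/-- the quotient by `p` -/
private theorem CntD_quot {p v : O} {u : ℤ × ℤ} (h : tO u = p * v) :
    N p * v.re = (p.re + 3 * p.im) * u.1 + p.im * u.2 ∧ N p * v.im = p.re * u.2 - p.im * u.1 := by
  have h1 := congrArg QuadraticAlgebra.re h
  have h2 := congrArg QuadraticAlgebra.im h
  rw [QuadraticAlgebra.re_mul] at h1
  rw [QuadraticAlgebra.im_mul] at h2
  have h1' : u.1 = p.re * v.re + -1 * p.im * v.im := h1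
  have h2' : u.2 = p.re * v.im + p.im * v.re + 3 * p.im * v.im := h2
  unfold N
  constructor
  · rw [h1', h2']; ring
  · rw [h1', h2']; ring

open Classical in
theorem cnt_div {M : ℕ} (hM : 0 < M) {p : O} (hp : Dg M p) (T : ℕ) (b : ℤ × ℤ) :
    (((GA.TA.Bx T).filter (fun u => Cg M u b ∧ p ∣ tO u)).card : ℝ) ≤
      14 * (T : ℝ) ^ 2 / ((M : ℝ) ^ 2 * N p) + 5 := by
  obtain ⟨S, hS⟩ : ∃ S : Finset (ℤ × ℤ), S = (GA.TA.Bx T).filter (fun u => Cg M u b ∧ p ∣ tO u) := ⟨_, rfl⟩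
  rw [← hS]
  have hmem : ∀ u ∈ S, ((0 ≤ u.1 ∧ u.1 ≤ T) ∧ 0 ≤ u.2 ∧ u.2 ≤ T) ∧ Cg M u b ∧ p ∣ tO u := by
    intro u hu
    rw [hS, Finset.mem_filter] at hu
    exact ⟨CntD_mem hu.1, hu.2⟩
  have hq : ∀ u ∈ S, ∃ v : O, tO u = p * v := fun u hu => (hmem u hu).2.2
  choose! f hf using hq
  have hM0 : (0 : ℝ) < M := by exact_mod_cast hM
  have hl0 : 0 < N p := hp.tp.N_pos
  have hlr : (0 : ℝ) < (N p : ℝ) := by exact_mod_cast hl0
  obtain ⟨r, hr⟩ : ∃ r : ℝ, r = √(N p : ℝ) := ⟨_, rfl⟩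
  have hr0 : 0 < r := by
    rw [hr]
    exact Real.sqrt_pos.2 hlr
  have hr2 : r ^ 2 = (N p : ℝ) := by
    rw [hr]
    exact Real.sq_sqrt hlr.le
  have hre : (1 : ℝ) ≤ (p.re : ℝ) := by exact_mod_cast hp.1.1
  have him : (0 : ℝ) ≤ (p.im : ℝ) := by exact_mod_cast hp.1.2
  have hNp : (N p : ℝ) = (p.re : ℝ) ^ 2 + 3 * p.re * p.im + (p.im : ℝ) ^ 2 := by
    unfold N
    push_cast
    ring
  have hxr : (p.re : ℝ) ≤ r := by
    refine le_of_sq_le_sq ?_ hr0.le
    rw [hr2, hNp]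
    have : 0 ≤ (p.re : ℝ) * p.im := mul_nonneg (by linarith) him
    nlinarith
  have hyr : (p.im : ℝ) ≤ r := by
    refine le_of_sq_le_sq ?_ hr0.le
    rw [hr2, hNp]
    have : 0 ≤ (p.re : ℝ) * p.im := mul_nonneg (by linarith) him
    nlinarith
  have hzr : (p.re : ℝ) + 3 * p.im ≤ 3 * r := by
    refine le_of_sq_le_sq ?_ (by linarith)
    rw [mul_pow, hr2, hNp]
    have : 0 ≤ (p.re : ℝ) * p.im := mul_nonneg (by linarith) him
    nlinarith
  have hT0 : (0 : ℝ) ≤ T := Nat.cast_nonneg _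
  have hinj : S.card ≤ (S.image (fun u => ((f u).re, (f u).im))).card := by
    rw [Finset.card_image_of_injOn]
    intro u hu u' hu' h
    have h1 := hf u (Finset.mem_coe.1 hu)
    have h2 := hf u' (Finset.mem_coe.1 hu')
    have h3 : f u = f u' := QuadraticAlgebra.ext (congrArg Prod.fst h) (congrArg Prod.snd h)
    rw [← h3, ← h1] at h2
    exact Prod.ext (congrArg QuadraticAlgebra.re h2).symm (congrArg QuadraticAlgebra.im h2).symm
  have hbox : ((S.image (fun u => ((f u).re, (f u).im))).card : ℝ) ≤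
      ((4 * T / r - 0) / M + 1) * ((T / r - (-(T / r))) / M + 1) := by
    refine box_card hM (by positivity) ?_ ?_ ?_
    · have : 0 ≤ (T : ℝ) / r := by positivity
      linarith
    · intro x hx
      obtain ⟨u, hu, rfl⟩ := Finset.mem_image.1 hx
      obtain ⟨h1, h2⟩ := CntD_quot (hf u hu)
      obtain ⟨⟨⟨a1, a2⟩, a3, a4⟩, -⟩ := hmem u hu
      have b1 : (0 : ℝ) ≤ (u.1 : ℝ) := by exact_mod_cast a1
      have b2 : (u.1 : ℝ) ≤ T := by exact_mod_cast a2
      have b3 : (0 : ℝ) ≤ (u.2 : ℝ) := by exact_mod_cast a3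
      have b4 : (u.2 : ℝ) ≤ T := by exact_mod_cast a4
      have c1 : r ^ 2 * ((f u).re : ℝ) = (p.re + 3 * p.im) * u.1 + p.im * u.2 := by
        rw [hr2]
        exact_mod_cast h1
      have c2 : r ^ 2 * ((f u).im : ℝ) = p.re * u.2 - p.im * u.1 := by
        rw [hr2]
        exact_mod_cast h2
      have d1 : ((p.re : ℝ) + 3 * p.im) * u.1 ≤ 3 * r * T := mul_le_mul hzr b2 b1 (by positivity)
      have d2 : (p.im : ℝ) * u.2 ≤ r * T := mul_le_mul hyr b4 b3 hr0.le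
      have d3 : (p.re : ℝ) * u.2 ≤ r * T := mul_le_mul hxr b4 b3 hr0.le
      have d4 : (p.im : ℝ) * u.1 ≤ r * T := mul_le_mul hyr b2 b1 hr0.le
      have e1 : 0 ≤ ((p.re : ℝ) + 3 * p.im) * u.1 := mul_nonneg (by linarith) b1
      have e2 : 0 ≤ (p.im : ℝ) * u.2 := mul_nonneg him b3
      have e3 : 0 ≤ (p.re : ℝ) * u.2 := mul_nonneg (by linarith) b3
      have e4 : 0 ≤ (p.im : ℝ) * u.1 := mul_nonneg him b1
      have hr20 : 0 < r ^ 2 := by positivity
      refine ⟨⟨?_, ?_⟩, ?_, ?_⟩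
      · show (0 : ℝ) ≤ ((f u).re : ℝ)
        refine nonneg_of_mul_nonneg_right ?_ hr20
        rw [c1]
        linarith
      · show ((f u).re : ℝ) ≤ 4 * T / r
        rw [le_div_iff₀ hr0]
        refine le_of_mul_le_mul_left ?_ hr0
        calc r * (((f u).re : ℝ) * r) = r ^ 2 * (f u).re := by ring
          _ ≤ r * (4 * T) := by rw [c1]; linarith
      · show -((T : ℝ) / r) ≤ ((f u).im : ℝ)
        rw [neg_le, le_div_iff₀ hr0]
        refine le_of_mul_le_mul_left ?_ hr0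
        calc r * (-((f u).im : ℝ) * r) = -(r ^ 2 * (f u).im) := by ring
          _ ≤ r * T := by rw [c2]; linarith
      · show ((f u).im : ℝ) ≤ T / r
        rw [le_div_iff₀ hr0]
        refine le_of_mul_le_mul_left ?_ hr0
        calc r * (((f u).im : ℝ) * r) = r ^ 2 * (f u).im := by ring
          _ ≤ r * T := by rw [c2]; linarith
    · intro x hx x' hx'
      obtain ⟨u, hu, rfl⟩ := Finset.mem_image.1 hx
      obtain ⟨u', hu', rfl⟩ := Finset.mem_image.1 hx'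
      obtain ⟨h1, h2⟩ := CntD_quot (hf u hu)
      obtain ⟨h1', h2'⟩ := CntD_quot (hf u' hu')
      obtain ⟨-, ⟨a1, a2⟩, -⟩ := hmem u hu
      obtain ⟨-, ⟨a1', a2'⟩, -⟩ := hmem u' hu'
      have k1 : (M : ℤ) ∣ u.1 - u'.1 := by
        have := dvd_sub a1 a1'
        have e : u.1 - b.1 - (u'.1 - b.1) = u.1 - u'.1 := by ring
        rwa [e] at this
      have k2 : (M : ℤ) ∣ u.2 - u'.2 := by
        have := dvd_sub a2 a2'
        have e : u.2 - b.2 - (u'.2 - b.2) = u.2 - u'.2 := by ring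
        rwa [e] at this
      have hcop : IsCoprime (M : ℤ) (N p) := by
        have h3 : N p = (((N p).natAbs : ℕ) : ℤ) := by omega
        rw [h3, Nat.isCoprime_iff_coprime]
        exact ((Nat.Prime.coprime_iff_not_dvd hp.2.1).2 hp.2.2).symm
      constructor
      · refine hcop.dvd_of_dvd_mul_left ?_
        show (M : ℤ) ∣ N p * ((f u).re - (f u').re)
        have e : N p * ((f u).re - (f u').re) = (p.re + 3 * p.im) * (u.1 - u'.1) + p.im * (u.2 - u'.2) := by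
          linear_combination h1 - h1'
        rw [e]
        exact dvd_add (Dvd.dvd.mul_left k1 _) (Dvd.dvd.mul_left k2 _)
      · refine hcop.dvd_of_dvd_mul_left ?_
        show (M : ℤ) ∣ N p * ((f u).im - (f u').im)
        have e : N p * ((f u).im - (f u').im) = p.re * (u.2 - u'.2) - p.im * (u.1 - u'.1) := by
          linear_combination h2 - h2'
        rw [e]
        exact dvd_sub (Dvd.dvd.mul_left k2 _) (Dvd.dvd.mul_left k1 _)
  have h1 : (S.card : ℝ) ≤ ((4 * T / r - 0) / M + 1) * ((T / r - (-(T / r))) / M + 1) := by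
    refine le_trans ?_ hbox
    exact_mod_cast hinj
  obtain ⟨t, ht⟩ : ∃ t : ℝ, t = T / (M * r) := ⟨_, rfl⟩
  have e1 : (4 * T / r - 0) / M = 4 * t := by
    rw [ht]
    field_simp
    ring
  have e2 : (T / r - (-(T / r))) / M = 2 * t := by
    rw [ht]
    field_simp
    ring
  have e3 : 14 * (T : ℝ) ^ 2 / ((M : ℝ) ^ 2 * N p) = 14 * t ^ 2 := by
    rw [ht, ← hr2]
    field_simp
  rw [e1, e2] at h1
  rw [e3]
  nlinarith [sq_nonneg (t - 1), sq_nonneg t]

end Pool.Agent.Lib.MP_d57abb_nt.GT
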