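import Pool.Agent.Lib.MP_d57abb_nt.GT.CntD

/-!
# the vectors of a box in a primitive residue class which are not primitive

If `u ≠ 0` is not primitive there is a prime `l ∣ u.1, u.2`, `l ≤ T`; `l` does not divide `M` (otherwise `l ∣ b.1, b.2`), so `l > y`.  For each such `l` the number of `u` is at most `(T / (M l) + 1)²`
(`u.1 ≡ b.1 (M)`, `u.1 ≡ 0 (l)`: one class modulo `M l`) `≤ 2 T² / (M² l²) + 2`.  Sum over `y < l ≤ T`: `∑ 1/l² ≤ 1/y`.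
-/

namespace Pool.Agent.Lib.MP_d57abb_nt.GT

open Finset MR

private theorem CntP_mem {T : ℕ} {u : ℤ × ℤ} (h : u ∈ GA.TA.Bx T) : (0 ≤ u.1 ∧ u.1 ≤ T) ∧ 0 ≤ u.2 ∧ u.2 ≤ T := by
  unfold GA.TA.Bx at h
  rw [Finset.mem_product, Finset.mem_Icc, Finset.mem_Icc] at h
  exact h

open Classical in
private theorem CntP_one {M l : ℕ} (hM : 0 < M) (hl : l.Prime) (hlM : ¬ l ∣ M) (T : ℕ) (b : ℤ × ℤ) :
    (((GA.TA.Bx T).filter (fun u => Cg M u b ∧ (l : ℤ) ∣ u.1 ∧ (l : ℤ) ∣ u.2)).card : ℝ) ≤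
      2 * (T : ℝ) ^ 2 / (M : ℝ) ^ 2 * ((l : ℝ) ^ 2)⁻¹ + 2 := by
  have hM0 : (0 : ℝ) < M := by exact_mod_cast hM
  have hl0 : (0 : ℝ) < l := by exact_mod_cast hl.pos
  have hT0 : (0 : ℝ) ≤ T := Nat.cast_nonneg _
  have hcop : IsCoprime (M : ℤ) (l : ℤ) := by
    rw [Nat.isCoprime_iff_coprime]
    exact ((Nat.Prime.coprime_iff_not_dvd hl).2 hlM).symm
  have h1 := box_card (S := (GA.TA.Bx T).filter (fun u => Cg M u b ∧ (l : ℤ) ∣ u.1 ∧ (l : ℤ) ∣ u.2))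
    (M := M * l) (lo := 0) (hi := T) (lo' := 0) (hi' := T) (Nat.mul_pos hM hl.pos) hT0 hT0 ?_ ?_
  · refine h1.trans ?_
    have e : ((T : ℝ) - 0) / ((M * l : ℕ) : ℝ) = T / (M * l) := by
      push_cast
      ring
    rw [e]
    have e2 : 2 * (T : ℝ) ^ 2 / (M : ℝ) ^ 2 * ((l : ℝ) ^ 2)⁻¹ = 2 * (T / (M * l)) ^ 2 := by
      field_simp
    rw [e2]
    nlinarith [sq_nonneg ((T : ℝ) / (M * l) - 1)]
  · intro x hx
    obtain ⟨⟨a1, a2⟩, a3, a4⟩ := CntP_mem (Finset.mem_filter.1 hx).1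
    exact ⟨⟨by exact_mod_cast a1, by exact_mod_cast a2⟩, by exact_mod_cast a3, by exact_mod_cast a4⟩
  · intro x hx x' hx'
    obtain ⟨-, ⟨a1, a2⟩, a3, a4⟩ := Finset.mem_filter.1 hx
    obtain ⟨-, ⟨b1, b2⟩, b3, b4⟩ := Finset.mem_filter.1 hx'
    push_cast
    constructor
    · refine hcop.mul_dvd ?_ (dvd_sub a3 b3)
      have := dvd_sub a1 b1
      have e : x.1 - b.1 - (x'.1 - b.1) = x.1 - x'.1 := by ring
      rwa [e] at this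
    · refine hcop.mul_dvd ?_ (dvd_sub a4 b4)
      have := dvd_sub a2 b2
      have e : x.2 - b.2 - (x'.2 - b.2) = x.2 - x'.2 := by ring
      rwa [e] at this

open Classical in
theorem cnt_np {M y : ℕ} (hM : 0 < M) (hy : 1 ≤ y) (hMy : ∀ q : ℕ, q.Prime → q ≤ y → q ∣ M) (T : ℕ) {b : ℤ × ℤ}
    (hb : ∀ q : ℕ, q.Prime → q ∣ M → ¬ ((q : ℤ) ∣ b.1 ∧ (q : ℤ) ∣ b.2)) :
    (((GA.TA.Bx T).filter (fun u => (u ≠ 0 ∧ Cg M u b) ∧ ¬ IsCoprime u.1 u.2)).card : ℝ) ≤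
      2 * (T : ℝ) ^ 2 / ((M : ℝ) ^ 2 * y) + 2 * T := by
  have hM0 : (0 : ℝ) < M := by exact_mod_cast hM
  have hy0 : (0 : ℝ) < y := by exact_mod_cast hy
  have hT0 : (0 : ℝ) ≤ T := Nat.cast_nonneg _
  have hsub : (GA.TA.Bx T).filter (fun u => (u ≠ 0 ∧ Cg M u b) ∧ ¬ IsCoprime u.1 u.2) ⊆
      ((Ioc y T).filter (fun l => l.Prime ∧ ¬ l ∣ M)).biUnion
        (fun l => (GA.TA.Bx T).filter (fun u => Cg M u b ∧ (l : ℤ) ∣ u.1 ∧ (l : ℤ) ∣ u.2)) := by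
    intro u hu
    obtain ⟨hu1, ⟨hu0, hc⟩, hnc⟩ := Finset.mem_filter.1 hu
    obtain ⟨⟨a1, a2⟩, a3, a4⟩ := CntP_mem hu1
    rw [Int.isCoprime_iff_gcd_eq_one] at hnc
    obtain ⟨l, hl, hd⟩ := Nat.exists_prime_and_dvd hnc
    have hd1 : (l : ℤ) ∣ (Int.gcd u.1 u.2 : ℤ) := by exact_mod_cast hd
    have h1 : (l : ℤ) ∣ u.1 := hd1.trans (Int.gcd_dvd_left ..)
    have h2 : (l : ℤ) ∣ u.2 := hd1.trans (Int.gcd_dvd_right ..)
    have hlM : ¬ l ∣ M := by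
      intro h3
      have h4 : (l : ℤ) ∣ (M : ℤ) := by exact_mod_cast h3
      refine hb l hl h3 ⟨?_, ?_⟩
      · have := dvd_sub h1 (h4.trans hc.1)
        have e : u.1 - (u.1 - b.1) = b.1 := by ring
        rwa [e] at this
      · have := dvd_sub h2 (h4.trans hc.2)
        have e : u.2 - (u.2 - b.2) = b.2 := by ring
        rwa [e] at this
    have hly : y < l := by
      by_contra h3
      exact hlM (hMy l hl (by omega))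
    have hlT : l ≤ T := by
      by_cases h3 : u.1 = 0
      · have h4 : u.2 ≠ 0 := fun h4 => hu0 (Prod.ext h3 h4)
        have h5 := Int.le_of_dvd (by omega) h2
        omega
      · have h5 := Int.le_of_dvd (by omega) h1
        omega
    exact Finset.mem_biUnion.2 ⟨l, Finset.mem_filter.2 ⟨Finset.mem_Ioc.2 ⟨hly, hlT⟩, hl, hlM⟩,
      Finset.mem_filter.2 ⟨hu1, hc, h1, h2⟩⟩
  have h1 : (((GA.TA.Bx T).filter (fun u => (u ≠ 0 ∧ Cg M u b) ∧ ¬ IsCoprime u.1 u.2)).card : ℝ) ≤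
      ∑ l ∈ (Ioc y T).filter (fun l => l.Prime ∧ ¬ l ∣ M),
        (((GA.TA.Bx T).filter (fun u => Cg M u b ∧ (l : ℤ) ∣ u.1 ∧ (l : ℤ) ∣ u.2)).card : ℝ) := by
    have := (Finset.card_le_card hsub).trans Finset.card_biUnion_le
    exact_mod_cast this
  have h2 : ∑ l ∈ (Ioc y T).filter (fun l => l.Prime ∧ ¬ l ∣ M),
        (((GA.TA.Bx T).filter (fun u => Cg M u b ∧ (l : ℤ) ∣ u.1 ∧ (l : ℤ) ∣ u.2)).card : ℝ) ≤
      ∑ l ∈ Ioc y T, (2 * (T : ℝ) ^ 2 / (M : ℝ) ^ 2 * ((l : ℝ) ^ 2)⁻¹ + 2) := by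
    refine le_trans (Finset.sum_le_sum fun l hl => ?_)
      (Finset.sum_le_sum_of_subset_of_nonneg (Finset.filter_subset _ _) fun l _ _ => by positivity)
    obtain ⟨-, h3, h4⟩ := Finset.mem_filter.1 hl
    exact CntP_one hM h3 h4 T b
  refine h1.trans (h2.trans ?_)
  rw [Finset.sum_add_distrib, ← Finset.mul_sum, Finset.sum_const, Nat.card_Ioc, nsmul_eq_mul]
  have h3 : ∑ l ∈ Ioc y T, ((l : ℝ) ^ 2)⁻¹ ≤ 1 / y := by
    by_cases h4 : y ≤ T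
    · refine (sum_Ioc_inv_sq_le_sub (by omega) h4).trans ?_
      rw [one_div]
      have : (0 : ℝ) ≤ (T : ℝ)⁻¹ := by positivity
      linarith
    · rw [Finset.Ioc_eq_empty (by omega), Finset.sum_empty]
      positivity
  have h4 : ((T - y : ℕ) : ℝ) ≤ T := by exact_mod_cast Nat.sub_le T y
  have h5 : 2 * (T : ℝ) ^ 2 / (M : ℝ) ^ 2 * ∑ l ∈ Ioc y T, ((l : ℝ) ^ 2)⁻¹ ≤
      2 * (T : ℝ) ^ 2 / (M : ℝ) ^ 2 * (1 / y) := mul_le_mul_of_nonneg_left h3 (by positivity)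
  have e : 2 * (T : ℝ) ^ 2 / ((M : ℝ) ^ 2 * y) = 2 * (T : ℝ) ^ 2 / (M : ℝ) ^ 2 * (1 / y) := by
    field_simp
  rw [e]
  linarith

end Pool.Agent.Lib.MP_d57abb_nt.GT
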