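import Pool.Agent.Lib.MP_d57abb_nt.Farey
import Pool.Agent.Lib.MP_d57abb_nt.MR.ChB
import Pool.Agent.Lib.MP_d57abb_nt.MR.Prm
import Pool.Agent.Lib.MP_d57abb_nt.GA.TZ.Defs
import Pool.Agent.Lib.MP_d57abb_nt.KT.CntP

/-!
# Functions which pretend to be characters: definitions
-/

namespace Pool.Agent.Lib.MP_d57abb_nt.GT

open Finset

noncomputable section

/-- the vector as an element of the ring -/
def tO (v : ℤ × ℤ) : MR.O := ⟨v.1, v.2⟩

/-- the value of `g` at the norm is not the inverse of the character -/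
def Bad (g : ℕ → ℤ) {W : ℕ} (χ : MulChar (MR.RW W) ℂ) (p : MR.O) : Prop :=
  ((g (MR.N p).natAbs : ℤ) : ℂ) * χ (MR.red W p) ≠ 1

/-- congruent modulo `M` -/
def Cg (M : ℕ) (u b : ℤ × ℤ) : Prop := (M : ℤ) ∣ u.1 - b.1 ∧ (M : ℤ) ∣ u.2 - b.2

/-- primitive vectors without bad prime factors of norm prime to `M` -/
def Gd (g : ℕ → ℤ) {W : ℕ} (χ : MulChar (MR.RW W) ℂ) (M : ℕ) (u : ℤ × ℤ) : Prop :=
  IsCoprime u.1 u.2 ∧ ∀ p : MR.O, MR.Dg M p → p ∣ tO u → ¬ Bad g χ p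

open Classical in
/-- the mass of the bad primes is bounded -/
def Pret (g : ℕ → ℤ) {W : ℕ} (χ : MulChar (MR.RW W) ℂ) : Prop :=
  ∃ B : ℝ, ∀ z : ℝ, ∑ p ∈ (MR.PP W z).filter (fun p => Bad g χ p), 1 / (MR.N p : ℝ) ≤ B

/-- the trivial label, used only to call general lemmas -/
@[reducible] def lab0 : GA.TA.Lab where
  h := fun _ => 0
  mul := fun _ _ _ _ => rfl
  ps := fun P => KT.PP P
  psub := fun P p hp => by
    obtain ⟨h1, h2, h3⟩ := KT.mem_PP.1 hp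
    exact ⟨h1, h2, h3⟩
  C := 5
  C0 := by norm_num
  plow := KT.PP_lower

end

end Pool.Agent.Lib.MP_d57abb_nt.GT
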