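import Pool.Agent.Lib.MP_d57abb_nt.MR.ChA

/-!
# Elements of norm one of the residue rings

Hilbert 90: `y = z + x * star z` has `x * star y = y`; `z` is chosen such that `y` is a unit.
-/

namespace Pool.Agent.Lib.MP_d57abb_nt.GT

open MR

/-- one prime -/
private theorem H90_one {l : ℕ} (hl : l.Prime) (X : O) (hN : (l : ℤ) ∣ N X - 1)
    (h5 : l = 5 → (5 : ℤ) ∣ X.re - X.im - 1) : ∃ z : O, ¬ (l : ℤ) ∣ N (z + X * star z) := by
  by_contra hcon
  push Not at hcon
  have hlz : Prime (l : ℤ) := Nat.prime_iff_prime_int.1 hl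
  have hX : N X = X.re ^ 2 + 3 * X.re * X.im + X.im ^ 2 := rfl
  have a1 := hcon 1
  have a2 := hcon ⟨0, 1⟩
  have a3 := hcon ⟨1, 1⟩
  have e1 : N ((1 : O) + X * star (1 : O)) = N X + (2 * X.re + 3 * X.im + 1) := by
    unfold N
    rw [star_one, mul_one]
    simp only [QuadraticAlgebra.re_add, QuadraticAlgebra.im_add, QuadraticAlgebra.re_one, QuadraticAlgebra.im_one]
    ring
  have e2 : N ((⟨0, 1⟩ : O) + X * star (⟨0, 1⟩ : O)) = N X + (7 * X.re + 3 * X.im + 1) := by
    unfold N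
    simp only [QuadraticAlgebra.re_add, QuadraticAlgebra.im_add, QuadraticAlgebra.re_mul, QuadraticAlgebra.im_mul,
      QuadraticAlgebra.re_star, QuadraticAlgebra.im_star]
    ring
  have e3 : N ((⟨1, 1⟩ : O) + X * star (⟨1, 1⟩ : O)) = 5 * N X + (15 * X.re + 10 * X.im + 5) := by
    unfold N
    simp only [QuadraticAlgebra.re_add, QuadraticAlgebra.im_add, QuadraticAlgebra.re_mul, QuadraticAlgebra.im_mul,
      QuadraticAlgebra.re_star, QuadraticAlgebra.im_star]
    ring
  rw [e1] at a1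
  rw [e2] at a2
  rw [e3] at a3
  have b1 : (l : ℤ) ∣ 2 * X.re + 3 * X.im + 2 := by
    have := dvd_sub a1 hN
    have e : N X + (2 * X.re + 3 * X.im + 1) - (N X - 1) = 2 * X.re + 3 * X.im + 2 := by ring
    rwa [e] at this
  have b2 : (l : ℤ) ∣ 5 * X.re := by
    have := dvd_sub a2 a1
    have e : N X + (7 * X.re + 3 * X.im + 1) - (N X + (2 * X.re + 3 * X.im + 1)) = 5 * X.re := by ring
    rwa [e] at this
  have b3 : (l : ℤ) ∣ 15 * X.re + 10 * X.im + 10 := by
    have := dvd_sub a3 (hN.mul_left 5)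
    have e : 5 * N X + (15 * X.re + 10 * X.im + 5) - 5 * (N X - 1) = 15 * X.re + 10 * X.im + 10 := by ring
    rwa [e] at this
  by_cases h : l = 5
  · have h6 := h5 h
    rw [h] at b1
    push_cast at b1
    omega
  · have hl5 : ¬ (l : ℤ) ∣ 5 := by
      intro h7
      have h8 : l ∣ 5 := by exact_mod_cast h7
      exact h ((Nat.prime_dvd_prime_iff_eq hl (by norm_num)).1 h8)
    have c1 : (l : ℤ) ∣ X.re := (hlz.dvd_or_dvd b2).resolve_left hl5
    have c2 : (l : ℤ) ∣ 3 * X.im + 2 := by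
      have := dvd_sub b1 (c1.mul_left 2)
      have e : 2 * X.re + 3 * X.im + 2 - 2 * X.re = 3 * X.im + 2 := by ring
      rwa [e] at this
    have c3 : (l : ℤ) ∣ 5 * (2 * X.im + 2) := by
      have := dvd_sub b3 (c1.mul_left 15)
      have e : 15 * X.re + 10 * X.im + 10 - 15 * X.re = 5 * (2 * X.im + 2) := by ring
      rwa [e] at this
    have c4 : (l : ℤ) ∣ 2 * X.im + 2 := (hlz.dvd_or_dvd c3).resolve_left hl5
    have c5 : (l : ℤ) ∣ X.im := by
      have := dvd_sub c2 c4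
      have e : 3 * X.im + 2 - (2 * X.im + 2) = X.im := by ring
      rwa [e] at this
    have c6 : (l : ℤ) ∣ N X := by
      rw [hX]
      have e : X.re ^ 2 + 3 * X.re * X.im + X.im ^ 2 = X.re * (X.re + 3 * X.im) + X.im * X.im := by ring
      rw [e]
      exact dvd_add (c1.mul_right _) (c5.mul_right _)
    have c7 : (l : ℤ) ∣ 1 := by
      have := dvd_sub c6 hN
      have e : N X - (N X - 1) = 1 := by ring
      rwa [e] at this
    exact hlz.not_unit (isUnit_of_dvd_one c7)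

private theorem H90_congr {s : ℕ} {X z z' : O} (h : red s z' = red s z) :
    (s : ℤ) ∣ N (z' + X * star z') ↔ (s : ℤ) ∣ N (z + X * star z) := by
  have e : ∀ z : O, ((N (z + X * star z) : ℤ) : ZMod s) = MR.nm (red s z + red s X * star (red s z)) := by
    intro z
    rw [← nm_red, map_add, map_mul, red_star]
  rw [← ZMod.intCast_zmod_eq_zero_iff_dvd, ← ZMod.intCast_zmod_eq_zero_iff_dvd, e, e, h]

private theorem H90_red {s : ℕ} {z w : O} {c : ℤ} (h : (s : ℤ) ∣ c) : red s (z + (⟨c, 0⟩ : O) * w) = red s z := by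
  rw [map_add, map_mul]
  have : red s (⟨c, 0⟩ : O) = 0 := by
    ext
    · rw [red_re, QuadraticAlgebra.re_zero]
      exact (ZMod.intCast_zmod_eq_zero_iff_dvd c s).2 h
    · rw [red_im, QuadraticAlgebra.im_zero]
      exact Int.cast_zero
  rw [this, zero_mul, add_zero]

private theorem H90_crt (X : O) (S : Finset ℕ) (hS : ∀ l ∈ S, l.Prime)
    (h : ∀ l ∈ S, ∃ z : O, ¬ (l : ℤ) ∣ N (z + X * star z)) : ∃ z : O, ∀ l ∈ S, ¬ (l : ℤ) ∣ N (z + X * star z) := by
  classical
  induction S using Finset.induction_on with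
  | empty => exact ⟨0, fun l hl => absurd hl (Finset.notMem_empty l)⟩
  | insert l S hlS ih =>
    obtain ⟨z, hz⟩ := ih (fun p hp => hS p (Finset.mem_insert_of_mem hp)) (fun p hp => h p (Finset.mem_insert_of_mem hp))
    obtain ⟨z', hz'⟩ := h l (Finset.mem_insert_self l S)
    have hl := hS l (Finset.mem_insert_self l S)
    have hcop : Nat.Coprime (∏ p ∈ S, p) l := by
      refine Nat.Coprime.prod_left fun p hp => ?_
      rw [Nat.coprime_primes (hS p (Finset.mem_insert_of_mem hp)) hl]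
      rintro rfl
      exact hlS hp
    have hcop' : IsCoprime ((∏ p ∈ S, p : ℕ) : ℤ) (l : ℤ) := Nat.isCoprime_iff_coprime.2 hcop
    obtain ⟨u, v, huv⟩ := hcop'
    refine ⟨z + (⟨u * ((∏ p ∈ S, p : ℕ) : ℤ), 0⟩ : O) * (z' - z), fun p hp => ?_⟩
    rcases Finset.mem_insert.1 hp with rfl | hp
    · have e : z + (⟨u * ((∏ p ∈ S, p : ℕ) : ℤ), 0⟩ : O) * (z' - z) = z' + (⟨v * (p : ℤ), 0⟩ : O) * (z - z') := by
        have e1 : u * ((∏ p ∈ S, p : ℕ) : ℤ) = 1 - v * (p : ℤ) := by linarith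
        rw [e1]
        ext
        · simp only [QuadraticAlgebra.re_add, QuadraticAlgebra.re_mul, QuadraticAlgebra.re_sub, QuadraticAlgebra.im_sub]
          ring
        · simp only [QuadraticAlgebra.im_add, QuadraticAlgebra.im_mul, QuadraticAlgebra.re_sub, QuadraticAlgebra.im_sub]
          ring
      rw [e, H90_congr (H90_red (Dvd.intro_left v rfl))]
      exact hz'
    · have hpM : (p : ℤ) ∣ ((∏ p ∈ S, p : ℕ) : ℤ) := by
        exact_mod_cast Finset.dvd_prod_of_mem (fun p => p) hp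
      rw [H90_congr (H90_red (hpM.mul_left u))]
      exact hz p hp

private theorem H90_main {W : ℕ} [NeZero W] (X : O) (hx : MR.nm (red W X) = 1)
    (h5 : 5 ∣ W → (5 : ℤ) ∣ X.re - X.im - 1) : ∃ y : RW W, IsUnit y ∧ red W X * star y = y := by
  have hN : (W : ℤ) ∣ N X - 1 := by
    rw [nm_red] at hx
    rw [← ZMod.intCast_zmod_eq_zero_iff_dvd, Int.cast_sub, hx, Int.cast_one, sub_self]
  obtain ⟨z, hz⟩ := H90_crt X W.primeFactors (fun l hl => Nat.prime_of_mem_primeFactors hl) (fun l hl => by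
    have hlW : l ∣ W := Nat.dvd_of_mem_primeFactors hl
    refine H90_one (Nat.prime_of_mem_primeFactors hl) X ((by exact_mod_cast hlW : (l : ℤ) ∣ (W : ℤ)).trans hN) fun h => ?_
    exact h5 (h ▸ hlW))
  refine ⟨red W (z + X * star z), ?_, ?_⟩
  · rw [isUnit_iff_nm, nm_red, ZMod.coe_int_isUnit_iff_isCoprime, Int.isCoprime_iff_gcd_eq_one]
    by_contra hne
    obtain ⟨l, hl, hlg⟩ := Nat.exists_prime_and_dvd hne
    have h1 : (l : ℤ) ∣ (W : ℤ) := (by exact_mod_cast hlg : (l : ℤ) ∣ (Int.gcd (W : ℤ) (N (z + X * star z)) : ℤ)).trans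
      (Int.gcd_dvd_left _ _)
    have h2 : (l : ℤ) ∣ N (z + X * star z) :=
      (by exact_mod_cast hlg : (l : ℤ) ∣ (Int.gcd (W : ℤ) (N (z + X * star z)) : ℤ)).trans (Int.gcd_dvd_right _ _)
    exact hz l (Nat.mem_primeFactors.2 ⟨hl, by exact_mod_cast h1, NeZero.ne W⟩) h2
  · have h1 : red W X * star (red W X) = 1 := by rw [mul_star_RW, hx, cst_one]
    rw [map_add, map_mul, red_star, star_add, star_mul', star_star]
    calc red W X * (star (red W z) + star (red W X) * red W z) =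
        red W X * star (red W z) + (red W X * star (red W X)) * red W z := by ring
      _ = red W z + red W X * star (red W z) := by rw [h1]; ring

theorem h90 {W : ℕ} [NeZero W] (x : RW W) (hx : MR.nm x = 1) :
    ∃ y : RW W, IsUnit y ∧ (x * star y = y ∨ x * red W om * star y = y) := by
  obtain ⟨a, ha⟩ := ZMod.intCast_surjective x.re
  obtain ⟨b, hb⟩ := ZMod.intCast_surjective x.im
  have hX : red W (⟨a, b⟩ : O) = x := by
    ext
    · rw [red_re]; exact ha
    · rw [red_im]; exact hb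
  rw [← hX] at hx
  by_cases h5 : 5 ∣ W → (5 : ℤ) ∣ (⟨a, b⟩ : O).re - (⟨a, b⟩ : O).im - 1
  · obtain ⟨y, hy, h⟩ := H90_main _ hx h5
    rw [hX] at h
    exact ⟨y, hy, Or.inl h⟩
  · rw [not_forall] at h5
    obtain ⟨h5W, h5⟩ := h5
    have hN : (5 : ℤ) ∣ N (⟨a, b⟩ : O) - 1 := by
      have h1 : (W : ℤ) ∣ N (⟨a, b⟩ : O) - 1 := by
        rw [nm_red] at hx
        rw [← ZMod.intCast_zmod_eq_zero_iff_dvd, Int.cast_sub, hx, Int.cast_one, sub_self]
      exact (by exact_mod_cast h5W : (5 : ℤ) ∣ (W : ℤ)).trans h1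
    have hab : (5 : ℤ) ∣ a - b + 1 := by
      have h1 : N (⟨a, b⟩ : O) - 1 = (a - b - 1) * (a - b + 1) + 5 * (a * b) := by
        show a ^ 2 + 3 * a * b + b ^ 2 - 1 = _
        ring
      rw [h1] at hN
      have h2 : (5 : ℤ) ∣ (a - b - 1) * (a - b + 1) := (dvd_add_left (Dvd.intro _ rfl)).1 hN
      have h3 : Prime (5 : ℤ) := by norm_num
      exact (h3.dvd_or_dvd h2).resolve_left h5
    have hX' : (⟨a, b⟩ : O) * om = ⟨-b, a + 3 * b⟩ := by
      ext
      · rw [QuadraticAlgebra.re_mul]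
        show a * 0 + -1 * b * 1 = -b
        ring
      · rw [QuadraticAlgebra.im_mul]
        show a * 1 + b * 0 + 3 * b * 1 = a + 3 * b
        ring
    obtain ⟨y, hy, h⟩ := H90_main (W := W) (⟨-b, a + 3 * b⟩ : O) (by
        rw [← hX', map_mul, nm_mul, hx, nm_red, one_mul]
        have : N om = 1 := by decide
        rw [this, Int.cast_one]) (fun _ => by
        show (5 : ℤ) ∣ -b - (a + 3 * b) - 1
        omega)
    rw [← hX', map_mul, hX] at h
    exact ⟨y, hy, Or.inr h⟩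

end Pool.Agent.Lib.MP_d57abb_nt.GT
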