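import Pool.Agent.Lib.MP_d57abb_nt.GT.NPx
import Pool.Agent.Lib.MP_d57abb_nt.GT.H90
import Pool.Agent.Lib.MP_d57abb_nt.MR.ChH

/-!
# The characters of the residue classes and the Dirichlet characters

* `conj_inv`: if `g (N p) χ(p) = 1` for most prime elements then `χ` is invariant under the conjugation.
* `ker_one`: it is trivial at the elements of norm one (`h90`), so it is the inverse of a Dirichlet character modulo `W` at the
  norm (`dich_dir`).
* `npx_of_dir`: functions which do not pretend to be a Dirichlet character on the primes `± 1` modulo `5`.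
-/

namespace Pool.Agent.Lib.MP_d57abb_nt.GT

open Finset
open Pool.Agent.Lib.MP_d57abb_nt.MR

private theorem Dich_nn {W : ℕ} (y : ℝ) : ∀ p ∈ PP W y, 0 ≤ 1 / (N p : ℝ) := by
  intro p hp
  have := (mem_PP.1 hp).1.tp.N_pos
  positivity

private theorem Dich_N (p : O) : N (⟨p.im, p.re⟩ : O) = N p := by
  show p.im ^ 2 + 3 * p.im * p.re + p.re ^ 2 = p.re ^ 2 + 3 * p.re * p.im + p.im ^ 2
  ring

open Classical in
/-- the character is invariant under the conjugation -/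
theorem conj_inv {W : ℕ} [NeZero W] (h5 : 5 ∣ W) (χ : MulChar (RW W) ℂ) (hom : χ (red W om) = 1) {g : ℕ → ℂ} {B : ℝ}
    (hB : ∀ y : ℝ, ∑ p ∈ (PP W y).filter (fun p => g (N p).natAbs * χ (red W p) ≠ 1), 1 / (N p : ℝ) ≤ B)
    {x : RW W} (hx : IsUnit x) : χ (star x) = χ x := by
  obtain ⟨χ', hχ'⟩ : ∃ χ' : MulChar (RW W) ℂ, ∀ x : RW W, IsUnit x → χ' x = χ (star x) := by
    refine ⟨MulChar.ofUnitHom (χ.toUnitHom.comp (Units.map (starRingEnd (RW W) : RW W →* RW W))), fun x hx => ?_⟩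
    obtain ⟨u, hu⟩ := hx
    rw [← hu, MulChar.ofUnitHom_coe, MonoidHom.comp_apply, MulChar.coe_toUnitHom, Units.coe_map]
    rfl
  have hu : ∀ x : RW W, IsUnit x → IsUnit (star x) := fun x hx => by
    rw [isUnit_iff_nm, nm_star, ← isUnit_iff_nm]
    exact hx
  have hne : ∀ x : RW W, IsUnit x → χ x ≠ 0 := fun x hx h0 => by
    have := norm_char χ hx
    rw [h0, norm_zero] at this
    exact zero_ne_one this
  have hψ : ∀ x : RW W, IsUnit x → (χ' * χ⁻¹) x = χ (star x) * (χ x)⁻¹ := by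
    intro x hx
    rw [MulChar.mul_apply, hχ' x hx, MulChar.inv_apply_eq_inv']
  have key : χ' * χ⁻¹ = 1 := by
    refine char_trivial h5 _ (B := B + B) ?_ fun z => ?_
    · rw [hψ _ isUnit_red_om, hom, inv_one, mul_one]
      have h1 : χ (red W om * star (red W om)) = 1 := by
        rw [mul_star_RW, nm_red]
        have : N om = 1 := by decide
        rw [this, Int.cast_one, cst_one, map_one]
      rw [map_mul, hom, one_mul] at h1
      exact h1
    · obtain ⟨F, hF⟩ : ∃ F : Finset O, F = (PP W z).filter (fun p => g (N p).natAbs * χ (red W p) ≠ 1) := ⟨_, rfl⟩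
      have hs : (PP W z).filter (fun p => (χ' * χ⁻¹) (red W p) ≠ 1) ⊆ F ∪ F.image (fun p : O => (⟨p.im, p.re⟩ : O)) := by
        intro p hp
        obtain ⟨hp1, hp2⟩ := mem_filter.1 hp
        have hup := isUnit_red_prime (mem_PP.1 hp1).1
        rw [hψ _ hup] at hp2
        rw [mem_union, hF, mem_filter, mem_image]
        by_cases h3 : g (N p).natAbs * χ (red W p) = 1
        · right
          refine ⟨⟨p.im, p.re⟩, mem_filter.2 ⟨mem_PP.2 ⟨(mem_PP.1 hp1).1.swap, ?_⟩, fun h4 => hp2 ?_⟩, rfl⟩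
          · rw [Dich_N]
            exact (mem_PP.1 hp1).2
          · rw [Dich_N, red_swap, map_mul, hom, one_mul] at h4
            have h5 : g (N p).natAbs ≠ 0 := left_ne_zero_of_mul_eq_one h3
            have h6 : χ (star (red W p)) = χ (red W p) := mul_left_cancel₀ h5 (h4.trans h3.symm)
            rw [h6, mul_inv_cancel₀ (hne _ hup)]
        · exact Or.inl ⟨hp1, h3⟩
      have hnF : ∀ p ∈ F, 0 ≤ 1 / (N p : ℝ) := fun p hp => Dich_nn z p (by rw [hF] at hp; exact (mem_filter.1 hp).1)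
      have hnI : ∀ p ∈ F.image (fun p : O => (⟨p.im, p.re⟩ : O)), 0 ≤ 1 / (N p : ℝ) := by
        intro p hp
        obtain ⟨q, hq, rfl⟩ := mem_image.1 hp
        rw [Dich_N]
        exact hnF q hq
      have h3 := Finset.sum_le_sum_of_subset_of_nonneg (f := fun p : O => 1 / (N p : ℝ)) hs fun p hp _ => by
        rcases mem_union.1 hp with hp | hp
        · exact hnF p hp
        · exact hnI p hp
      have h4 := Finset.sum_union_inter (s₁ := F) (s₂ := F.image (fun p : O => (⟨p.im, p.re⟩ : O)))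
        (f := fun p : O => 1 / (N p : ℝ))
      have h5' : 0 ≤ ∑ p ∈ F ∩ F.image (fun p : O => (⟨p.im, p.re⟩ : O)), 1 / (N p : ℝ) :=
        Finset.sum_nonneg fun p hp => hnF p (mem_inter.1 hp).1
      have h6 : ∑ p ∈ F.image (fun p : O => (⟨p.im, p.re⟩ : O)), 1 / (N p : ℝ) = ∑ p ∈ F, 1 / (N p : ℝ) := by
        rw [Finset.sum_image]
        · exact Finset.sum_congr rfl fun p _ => by rw [Dich_N]
        · intro p _ q _ hpq
          have h7 := congrArg QuadraticAlgebra.re hpq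
          have h8 := congrArg QuadraticAlgebra.im hpq
          exact QuadraticAlgebra.ext h8 h7
      have h7 := hB z
      rw [← hF] at h7
      linarith
  have h1 := hψ x hx
  rw [key, MulChar.one_apply hx] at h1
  rw [eq_comm, mul_inv_eq_one₀ (hne x hx)] at h1
  exact h1

open Classical in
theorem ker_one {W : ℕ} [NeZero W] (h5 : 5 ∣ W) (χ : MulChar (RW W) ℂ) (hom : χ (red W om) = 1) {g : ℕ → ℂ} {B : ℝ}
    (hB : ∀ y : ℝ, ∑ p ∈ (PP W y).filter (fun p => g (N p).natAbs * χ (red W p) ≠ 1), 1 / (N p : ℝ) ≤ B)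
    {x : RW W} (hx : MR.nm x = 1) : χ x = 1 := by
  obtain ⟨y, hy, h⟩ := h90 x hx
  have h1 := conj_inv h5 χ hom hB hy
  have h2 : χ y ≠ 0 := by
    intro h0
    have := norm_char χ hy
    rw [h0, norm_zero] at this
    exact zero_ne_one this
  rcases h with h | h
  · have h3 := congrArg χ h
    rw [map_mul, h1] at h3
    exact (mul_eq_right₀ h2).1 h3
  · have h3 := congrArg χ h
    rw [map_mul, map_mul, h1, hom, mul_one] at h3
    exact (mul_eq_right₀ h2).1 h3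

/-- a character trivial on the elements of norm one comes from a Dirichlet character -/
theorem dich_dir {W : ℕ} [NeZero W] (χ : MulChar (RW W) ℂ) (hker : ∀ x : RW W, MR.nm x = 1 → χ x = 1) :
    ∃ ψ : DirichletCharacter ℂ W, ∀ x : RW W, IsUnit x → ψ (MR.nm x) * χ x = 1 := by
  have hle : (nuH W).rangeRestrict.ker ≤ χ.toUnitHom.ker := by
    intro g hg
    rw [MonoidHom.mem_ker] at hg ⊢
    have h1 : nuH W g = 1 := by
      have h2 := congrArg Subtype.val hg
      exact h2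
    rw [Units.ext_iff, MulChar.coe_toUnitHom]
    refine hker _ ?_
    rw [← nuH_val, h1, Units.val_one]
  obtain ⟨φ₀, hφ₀⟩ : ∃ φ₀ : (nuH W).range →* ℂˣ, ∀ g : (RW W)ˣ, φ₀ ((nuH W).rangeRestrict g) = χ.toUnitHom g := by
    refine ⟨(nuH W).rangeRestrict.liftOfSurjective (nuH W).rangeRestrict_surjective ⟨χ.toUnitHom, hle⟩, fun g => ?_⟩
    exact MonoidHom.liftOfRightInverse_comp_apply _ _ (Function.rightInverse_surjInv _) ⟨χ.toUnitHom, hle⟩ g
  obtain ⟨φ, hφ⟩ := MonoidHom.domRestrict_surjective ℂ (nuH W).range φ₀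
  refine ⟨MulChar.ofUnitHom φ⁻¹, ?_⟩
  rintro _ ⟨g, rfl⟩
  have h1 : φ (nuH W g) = χ.toUnitHom g := by
    rw [← hφ₀, ← hφ]
    rfl
  rw [← nuH_val, MulChar.ofUnitHom_coe, MonoidHom.inv_apply, h1, ← MulChar.coe_toUnitHom, ← Units.val_mul,
    inv_mul_cancel, Units.val_one]

open Classical in
theorem npx_of_dir {g : ℕ → ℂ} (hD : ∀ Q : ℕ, 0 < Q → ∀ ψ : DirichletCharacter ℂ Q,
      ¬ Summable (fun p : ℕ => if (p.Prime ∧ (p % 5 = 1 ∨ p % 5 = 4)) ∧ g p ≠ ψ p then 1 / (p : ℝ) else 0)) : NPx g := by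
  intro W hW h5 χ hom B
  by_contra hcon
  push Not at hcon
  obtain ⟨ψ, hψ⟩ := dich_dir χ fun x hx => ker_one h5 χ hom (fun y => (hcon y).le) hx
  refine hD W (Nat.pos_of_ne_zero (NeZero.ne W)) ψ ?_
  refine summable_of_sum_le (c := B + W) (fun p => ?_) (fun s => ?_)
  · split_ifs
    · positivity
    · exact le_rfl
  obtain ⟨y, hy⟩ : ∃ y : ℝ, y = ((s.sup id : ℕ) : ℝ) := ⟨_, rfl⟩
  have hsy : ∀ p ∈ s, (p : ℝ) ≤ y := by
    intro p hp
    rw [hy]
    exact_mod_cast Finset.le_sup (f := id) hp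
  have h1 : ∑ p ∈ s, (if (p.Prime ∧ (p % 5 = 1 ∨ p % 5 = 4)) ∧ g p ≠ ψ p then 1 / (p : ℝ) else 0) ≤
      ∑ p ∈ s.filter (fun p => p ∣ W), 1 + ∑ p ∈ s.filter (fun p => ((p.Prime ∧ (p % 5 = 1 ∨ p % 5 = 4)) ∧ g p ≠ ψ p) ∧
        ¬ p ∣ W), 1 / (p : ℝ) := by
    rw [Finset.sum_filter, Finset.sum_filter, ← Finset.sum_add_distrib]
    refine Finset.sum_le_sum fun p _ => ?_
    by_cases h2 : (p.Prime ∧ (p % 5 = 1 ∨ p % 5 = 4)) ∧ g p ≠ ψ p
    · rw [if_pos h2]
      have h3 : (1 : ℝ) / p ≤ 1 := by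
        rw [div_le_one (by exact_mod_cast h2.1.1.pos)]
        exact_mod_cast h2.1.1.one_lt.le
      by_cases h4 : p ∣ W
      · have h5 : ¬ (((p.Prime ∧ (p % 5 = 1 ∨ p % 5 = 4)) ∧ g p ≠ ψ p) ∧ ¬ p ∣ W) := fun h => h.2 h4
        rw [if_pos h4, if_neg h5]
        linarith
      · have h5 : ((p.Prime ∧ (p % 5 = 1 ∨ p % 5 = 4)) ∧ g p ≠ ψ p) ∧ ¬ p ∣ W := ⟨h2, h4⟩
        rw [if_neg h4, if_pos h5]
        linarith
    · have h5 : ¬ (((p.Prime ∧ (p % 5 = 1 ∨ p % 5 = 4)) ∧ g p ≠ ψ p) ∧ ¬ p ∣ W) := fun h => h2 h.1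
      rw [if_neg h2, if_neg h5]
      split_ifs <;> norm_num
  have h2 : ∑ p ∈ s.filter (fun p => p ∣ W), (1 : ℝ) ≤ W := by
    rw [Finset.sum_const, nsmul_eq_mul, mul_one]
    have h3 : s.filter (fun p => p ∣ W) ⊆ Icc 1 W := by
      intro p hp
      have h4 := (mem_filter.1 hp).2
      have h5 : 0 < W := Nat.pos_of_ne_zero (NeZero.ne W)
      exact mem_Icc.2 ⟨Nat.pos_of_dvd_of_pos h4 h5, Nat.le_of_dvd h5 h4⟩
    have h4 := Finset.card_le_card h3
    rw [Nat.card_Icc] at h4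
    exact_mod_cast (by omega : (s.filter (fun p => p ∣ W)).card ≤ W)
  have hex : ∀ q ∈ s.filter (fun p => ((p.Prime ∧ (p % 5 = 1 ∨ p % 5 = 4)) ∧ g p ≠ ψ p) ∧ ¬ p ∣ W),
      ∃ p : O, p ∈ PP W y ∧ (N p).natAbs = q := by
    intro q hq
    obtain ⟨hq1, ⟨hq2, -⟩, hq3⟩ := mem_filter.1 hq
    obtain ⟨p, hp, hpq⟩ := exists_PS hq2.1 hq2.2 hq3 (hsy q hq1)
    exact ⟨p, (mem_filter.1 hp).1, by omega⟩
  choose! f hf hfq using hex
  have h3 : ∑ p ∈ s.filter (fun p => ((p.Prime ∧ (p % 5 = 1 ∨ p % 5 = 4)) ∧ g p ≠ ψ p) ∧ ¬ p ∣ W), 1 / (p : ℝ) ≤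
      ∑ p ∈ (PP W y).filter (fun p => g (N p).natAbs * χ (red W p) ≠ 1), 1 / (N p : ℝ) := by
    have h4 : ∑ p ∈ s.filter (fun p => ((p.Prime ∧ (p % 5 = 1 ∨ p % 5 = 4)) ∧ g p ≠ ψ p) ∧ ¬ p ∣ W), 1 / (p : ℝ) =
        ∑ p ∈ (s.filter (fun p => ((p.Prime ∧ (p % 5 = 1 ∨ p % 5 = 4)) ∧ g p ≠ ψ p) ∧ ¬ p ∣ W)).image f,
          1 / (N p : ℝ) := by
      rw [Finset.sum_image]
      · refine Finset.sum_congr rfl fun q hq => ?_
        have h5 := hfq q hq
        have h6 := (mem_PP.1 (hf q hq)).1.tp.N_pos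
        have h7 : (N (f q) : ℝ) = (q : ℝ) := by
          have h8 : N (f q) = (q : ℤ) := by omega
          rw [h8, Int.cast_natCast]
        rw [h7]
      · intro q hq q' hq' he
        rw [← hfq q hq, ← hfq q' hq', he]
    rw [h4]
    refine Finset.sum_le_sum_of_subset_of_nonneg ?_ ?_
    · intro p hp
      obtain ⟨q, hq, rfl⟩ := Finset.mem_image.1 hp
      refine mem_filter.2 ⟨hf q hq, fun h5 => ?_⟩
      obtain ⟨-, ⟨-, hq2⟩, -⟩ := mem_filter.1 hq
      apply hq2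
      have h6 := hψ (red W (f q)) (isUnit_red_prime (mem_PP.1 (hf q hq)).1)
      rw [nm_red] at h6
      have h7 : N (f q) = (q : ℤ) := by
        have := hfq q hq
        have := (mem_PP.1 (hf q hq)).1.tp.N_pos
        omega
      rw [h7, Int.cast_natCast] at h6
      rw [hfq q hq] at h5
      have h8 : χ (red W (f q)) ≠ 0 := by
        intro h9
        rw [h9, mul_zero] at h6
        exact zero_ne_one h6
      exact mul_right_cancel₀ h8 (h5.trans h6.symm)
    · intro p hp _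
      have := (mem_PP.1 (mem_filter.1 hp).1).1.tp.N_pos
      positivity
  have h4 := (hcon y).le
  linarith

end Pool.Agent.Lib.MP_d57abb_nt.GT
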