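import Pool.Agent.Lib.MP_d57abb_nt.GT.Defs
import Pool.Agent.Lib.MP_d57abb_nt.MR.EuA
import Pool.Agent.Lib.MP_d57abb_nt.MR.ChA

/-!
# the value at a vector without bad prime factors

`exists_dg`: `x` is not a unit and not zero, take an irreducible (prime) factor `p0` (`WfDvdMonoid.exists_irreducible_factor`, `instPID`), `span {p0} = span {v}` with `Qd v` (`exists_gen`).  `v ∣ N v` (`mul_star_self`)
so `v ∣ q` for a prime number `q ∣ N v` ; `N v ∣ q²`; `N v = 1` impossible (unit), `N v = q²` gives `q = v * unit`, `q ∣ x`, against `Pm_iff`.  So `N v = q`.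
`fct`: strong induction on `(N x).natAbs`; `N x = 1`: `x` is a unit, `x = om^k` (`unit_tp`, `isUnit_iff`), `χ = 1`.  Otherwise `x = p * y`, `TP y` (`TP.of_mul`), `Pm y` (`Pm_of_mul`), `red W y` and `red W p` are units,
`Dg W p` (the norm of `p` is a unit modulo `W`: `isUnit_iff_nm`, `nm_red`), `g` and `χ` are multiplicative.
-/

namespace Pool.Agent.Lib.MP_d57abb_nt.GT

open Finset MR

private theorem Fct_prime {v : O} (hv : Prime v) {n : ℕ} (hn : n ≠ 0) (h : v ∣ (n : O)) :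
    ∃ q : ℕ, q.Prime ∧ v ∣ (q : O) := by
  have h1 : ((n.primeFactorsList.map (fun q : ℕ => (q : O))).prod) = (n : O) := by
    conv_rhs => rw [← Nat.prod_primeFactorsList hn]
    rw [Nat.cast_list_prod]
  rw [← h1, Prime.dvd_prod_iff hv] at h
  obtain ⟨a, ha, hva⟩ := h
  obtain ⟨q, hq, rfl⟩ := List.mem_map.1 ha
  exact ⟨q, Nat.prime_of_mem_primeFactorsList hq, hva⟩

theorem exists_dg {x : O} (hx : MR.TP x) (hp : Pm x) (h1 : N x ≠ 1) :
    ∃ p y : O, Qd p ∧ (N p).natAbs.Prime ∧ MR.TP y ∧ x = p * y := by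
  have hNx := hx.N_pos
  have hnu : ¬ IsUnit x := by
    rw [isUnit_iff]
    omega
  obtain ⟨p0, hp0, hd⟩ := WfDvdMonoid.exists_irreducible_factor hnu hx.ne_zero
  have hI : Ideal.span {p0} ≠ (0 : Ideal O) := by
    intro h
    exact hp0.ne_zero (Ideal.span_singleton_eq_bot.mp h)
  obtain ⟨v, hv, hsp⟩ := exists_gen hI
  have hass : Associated p0 v := Ideal.span_singleton_eq_span_singleton.mp hsp
  have hvp : Prime v := hass.prime hp0.prime
  have hvx : v ∣ x := (hass.symm.dvd).trans hd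
  have hNv := hv.tp.N_pos
  have h2 : v ∣ (((N v).natAbs : ℕ) : O) := by
    refine ⟨star v, ?_⟩
    rw [mul_star_self]
    have h3 : ((((N v).natAbs : ℕ) : ℤ) : O) = ((N v : ℤ) : O) := by
      rw [Int.natCast_natAbs, abs_of_pos hNv]
    rw [← h3, Int.cast_natCast]
  obtain ⟨q, hq, hvq⟩ := Fct_prime hvp (by omega) h2
  obtain ⟨w, hw⟩ := hvq
  have h4 : (N v).natAbs * (N w).natAbs = q ^ 2 := by
    rw [← Int.natAbs_mul, ← N_mul, ← hw, N_natCast, Int.natAbs_pow, Int.natAbs_natCast]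
  have h5 : (N v).natAbs ∣ q ^ 2 := Dvd.intro _ h4
  obtain ⟨j, hj, hj2⟩ := (Nat.dvd_prime_pow hq).1 h5
  have hvne : (N v).natAbs ≠ 1 := fun h => hvp.not_isUnit (isUnit_iff.2 h)
  obtain ⟨y, hy⟩ := hvx
  refine ⟨v, y, hv, ?_, ?_, hy⟩
  · interval_cases j
    · exact absurd (by rw [hj2, pow_zero]) hvne
    · rw [hj2, pow_one]
      exact hq
    · exfalso
      rw [hj2] at h4
      have h6 : (N w).natAbs = 1 := by
        have h7 : 0 < q ^ 2 := Nat.pow_pos hq.pos
        exact Nat.eq_of_mul_eq_mul_left h7 (by rw [h4, mul_one])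
      have hwu : IsUnit w := isUnit_iff.2 h6
      apply (Pm_iff x).1 hp q hq
      rw [hw, hy]
      obtain ⟨u, hu⟩ := hwu
      rw [← hu]
      exact (Units.mul_right_dvd).2 (Dvd.intro _ rfl)
  · exact TP.of_mul hv.tp (hy ▸ hx)

theorem fct {g : ℕ → ℤ} (hg : CM g) {W : ℕ} [NeZero W] (χ : MulChar (RW W) ℂ) (hom : χ (red W om) = 1)
    {x : O} (hx : MR.TP x) (hp : Pm x) (hu : IsUnit (red W x)) (hb : ∀ p : O, Dg W p → p ∣ x → ¬ Bad g χ p) :
    ((g (N x).natAbs : ℤ) : ℂ) * χ (red W x) = 1 := by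
  obtain ⟨n, hn⟩ : ∃ n : ℕ, n = (N x).natAbs := ⟨_, rfl⟩
  induction n using Nat.strong_induction_on generalizing x with
  | _ n ih =>
  have hNx := hx.N_pos
  by_cases h1 : N x = 1
  · have hxu : IsUnit x := by
      rw [isUnit_iff, h1]
      rfl
    obtain ⟨k, hk⟩ := unit_tp hx hxu
    have hg1 : g 1 = 1 := by
      have h2 := hg.mul 1 1
      rw [mul_one] at h2
      rcases hg.val 1 one_pos with h3 | h3 <;> rw [h3] at h2 ⊢ <;> norm_num at h2
    have hχ : χ (red W x) = 1 := by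
      have h3 : red W x = (((Units.map (red W).toMonoidHom omu) ^ k : (RW W)ˣ) : RW W) := by
        rw [hk, ← map_zpow]
        rfl
      rw [h3]
      have h4 : χ (((Units.map (red W).toMonoidHom omu : (RW W)ˣ)) : RW W) = 1 := hom
      have h5 : χ.toUnitHom (Units.map (red W).toMonoidHom omu) = 1 := by
        rw [Units.ext_iff, MulChar.coe_toUnitHom]
        exact h4
      rw [← MulChar.coe_toUnitHom, map_zpow, h5, one_zpow]
      rfl
    rw [h1, hχ]
    simp [hg1]
  · obtain ⟨p, y, hpq, hpp, hy, hxy⟩ := exists_dg hx hp h1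
    have hNp := hpq.tp.N_pos
    have hNy := hy.N_pos
    have hNm : (N x).natAbs = (N p).natAbs * (N y).natAbs := by
      rw [hxy, N_mul, Int.natAbs_mul]
    have hup : IsUnit (red W p) ∧ IsUnit (red W y) := by
      rw [hxy, map_mul] at hu
      exact ⟨isUnit_of_mul_isUnit_left hu, isUnit_of_mul_isUnit_right hu⟩
    have hdg : Dg W p := by
      refine ⟨hpq, hpp, fun hd => ?_⟩
      have h2 := hup.1
      have h3 : N p = (((N p).natAbs : ℕ) : ℤ) := by omega
      rw [isUnit_iff_nm, nm_red, h3, Int.cast_natCast, ZMod.isUnit_iff_coprime] at h2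
      exact (Nat.Prime.coprime_iff_not_dvd hpp).1 h2 hd
    have hlt : (N y).natAbs < n := by
      rw [hn, hNm]
      have h2 := hpp.two_le
      have h3 : 0 < (N y).natAbs := by omega
      nlinarith
    have h2 := ih _ hlt hy (Pm_of_mul (hxy ▸ hp)) hup.2
      (fun q hq hqy => hb q hq (hqy.trans ⟨p, by rw [hxy, mul_comm]⟩)) rfl
    have h3 : ((g (N p).natAbs : ℤ) : ℂ) * χ (red W p) = 1 := by
      have h4 := hb p hdg ⟨y, hxy⟩
      unfold Bad at h4
      push Not at h4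
      exact h4
    rw [hNm, hg.mul, hxy, map_mul, map_mul]
    push_cast
    calc ((g (N p).natAbs : ℤ) : ℂ) * ((g (N y).natAbs : ℤ) : ℂ) * (χ (red W p) * χ (red W y)) =
        (((g (N p).natAbs : ℤ) : ℂ) * χ (red W p)) * (((g (N y).natAbs : ℤ) : ℂ) * χ (red W y)) := by ring
      _ = 1 := by rw [h2, h3, one_mul]

end Pool.Agent.Lib.MP_d57abb_nt.GT
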