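import Pool.Agent.Lib.MP_d57abb_nt.GT.Dich
import Pool.Agent.Lib.MP_d57abb_nt.GA.AW.FinW
import Pool.Agent.Lib.MP_d57abb_nt.GA.AS.ShN
import Pool.Agent.Lib.MP_d57abb_nt.GA.AS.Diag
import Pool.Agent.Lib.MP_d57abb_nt.GA.AS.RealC

/-!
# Mean values: final deduction
-/

namespace Pool.Agent.Lib.MP_d57abb_nt.GT

open Finset Filter Topology
open Pool.Agent.Lib.MP_d57abb_nt.GA.TA (Lab SP)
open Pool.Agent.Lib.MP_d57abb_nt.GA Pool.Agent.Lib.MP_d57abb_nt.GA.TZ Pool.Agent.Lib.MP_d57abb_nt.GA.AS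

/-- the natural averages at almost all scales, one function -/
theorem natAv [L : Lab] {q : ℕ} (hq : 0 < q) {z : ℂ} (hz : z ^ q = 1) (hOk : OkN z) :
    ∃ E : Set ℕ, LN (fun X => X ∈ E) ∧ ∀ c : ℝ, 1 < c →
      Tendsto (fun X : ℕ => ‖∑ k ∈ Icc 1 X, (tc c k : ℂ) * z ^ om k‖ / X) (atTop ⊓ 𝓟 Eᶜ) (𝓝 0) := by
  obtain ⟨S, hS⟩ : ∃ S : ℝ → ℕ → ℝ, S = fun c X => ‖∑ k ∈ Icc 1 X, (tc c k : ℂ) * z ^ om k‖ / X := ⟨_, rfl⟩
  obtain ⟨P, hP⟩ : ∃ P : ℚ × ℕ → ℕ → Prop, ∀ i X, P i X ↔ (1 < (i.1 : ℝ) ∧ 1 / ((i.2 : ℝ) + 1) < S i.1 X) :=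
    ⟨_, fun _ _ => Iff.rfl⟩
  have hLN : ∀ i, LN (P i) := by
    intro i
    by_cases h : 1 < (i.1 : ℝ)
    · have hε : (0 : ℝ) < 1 / ((i.2 : ℝ) + 1) := by positivity
      refine LN.mono (shN (by omega) hz hOk h hε) fun X _ hX => ?_
      have h1 := ((hP i X).1 hX).2
      rw [hS] at h1
      exact h1
    · exact LN_of_finite 0 fun X _ hX => h ((hP i X).1 hX).1
  obtain ⟨e, he⟩ := exists_surjective_nat (ℚ × ℕ)
  obtain ⟨E, hE, hN⟩ := diag (fun i => P (e i)) (fun i => hLN (e i))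
  refine ⟨E, hE, fun c hc => ?_⟩
  have hn : ‖z‖ = 1 := Complex.norm_eq_one_of_pow_eq_one hz (by omega)
  refine realC inf_le_left hn ?_ c hc
  intro r hr
  rw [Metric.tendsto_nhds]
  intro ε hε
  obtain ⟨n, hn1⟩ := exists_nat_one_div_lt hε
  obtain ⟨i, hi⟩ := he (r, n)
  obtain ⟨N, hN1⟩ := hN i
  rw [eventually_inf_principal]
  filter_upwards [eventually_ge_atTop N] with X hX hXE
  have h1 : ¬ P (e i) X := fun h => hXE (hN1 X hX h)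
  rw [hi, hP] at h1
  have h3 : S (r : ℝ) X ≤ 1 / ((n : ℝ) + 1) := by
    by_contra h4
    exact h1 ⟨hr, not_le.1 h4⟩
  have h5 : S (r : ℝ) X = ‖∑ k ∈ Icc 1 X, (tc (r : ℝ) k : ℂ) * z ^ om k‖ / X := by rw [hS]
  rw [Real.dist_0_eq_abs, ← h5]
  have h6 : 0 ≤ S (r : ℝ) X := by
    rw [h5]
    exact div_nonneg (norm_nonneg _) (Nat.cast_nonneg _)
  rw [abs_of_nonneg h6]
  exact lt_of_le_of_lt h3 hn1

open Classical in
/-- functions which do not pretend to be characters -/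
theorem finA {q : ℕ} (hq : 0 < q) {g : ℕ → ℂ} (hmul : ∀ a b : ℕ, 0 < a → 0 < b → g (a * b) = g a * g b)
    (hroot : ∀ n : ℕ, 0 < n → g n ^ q = 1)
    (hD : ∀ Q : ℕ, 0 < Q → ∀ ψ : DirichletCharacter ℂ Q,
      ¬ Summable (fun p : ℕ => if (p.Prime ∧ (p % 5 = 1 ∨ p % 5 = 4)) ∧ g p ≠ ψ p then 1 / (p : ℝ) else 0)) :
    (∀ c : ℝ, 1 < c → ∀ ε : ℝ, 0 < ε → ∃ K : ℝ, ∀ A X : ℕ, 1 ≤ A → A ≤ X →
      ‖∑ k ∈ Ioc A X, ((tc c k / k : ℝ) : ℂ) * g (ff k)‖ ≤ ε * Real.log (X / A) + K) ∧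
    ∃ E : Set ℕ, LN (fun X => X ∈ E) ∧ ∀ c : ℝ, 1 < c →
      Tendsto (fun X : ℕ => ‖∑ k ∈ Icc 1 X, (tc c k : ℂ) * g (ff k)‖ / X) (atTop ⊓ 𝓟 Eᶜ) (𝓝 0) := by
  have hnp := npx_of_dir hD
  constructor
  · intro c hc ε hε
    obtain ⟨K, -, hK⟩ := win hq hmul hroot hnp c hc ε hε
    exact ⟨K, hK⟩
  · obtain ⟨ζ, hζ, L, hOk, hL⟩ := npx_ok hq hmul hroot hnp
    have hom : ∀ k : ℕ, ζ ^ om k = g (ff k) := by
      intro k
      unfold om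
      exact hL _ (by unfold ff; positivity)
    obtain ⟨E, hE, hT⟩ := natAv hq hζ hOk
    refine ⟨E, hE, fun c hc => ?_⟩
    have h1 := hT c hc
    simp only [hom] at h1
    exact h1

end Pool.Agent.Lib.MP_d57abb_nt.GT
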