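import Pool.Agent.Lib.MP_d57abb_nt.GT.Defs

/-!
# The label of a completely multiplicative function with values in the roots of unity

The primes `± 1` modulo `5` of `(P/(1+η), P]` fall into at most `q` classes according to the square of the value; the largest class
has positive relative density.
-/

namespace Pool.Agent.Lib.MP_d57abb_nt.GT

open Finset
open Pool.Agent.Lib.MP_d57abb_nt.GA.TA (Lab)

/-- the primes of `PP P` close to `P` -/
noncomputable def Nar (η : ℝ) (P : ℕ) : Finset ℕ := (KT.PP P).filter (fun p => (P : ℝ) ≤ (1 + η) * p)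

theorem nar_low {η : ℝ} (hη : 0 < η) (hη1 : η ≤ 1) : ∃ P₀ : ℕ, ∀ P : ℕ, P₀ ≤ P →
    (P : ℝ) / (8 / η * Real.log P) ≤ ((Nar η P).card : ℝ) := by
  obtain ⟨P0, h0⟩ := KT.PP_count
  obtain ⟨P1, hP1⟩ := Filter.eventually_atTop.1 (KT.CntP_log.eventually_ge_atTop (320 / η))
  refine ⟨P0 + P1 + 1, fun P hP => ?_⟩
  have hL := hP1 P (by omega)
  have hL0 : 0 < Real.log P := lt_of_lt_of_le (by positivity) hL
  have hP0 : (0 : ℝ) < P := by exact_mod_cast (by omega : 0 < P)
  obtain ⟨y, hy⟩ : ∃ y : ℕ, y = ⌊(P : ℝ) / (1 + η)⌋₊ := ⟨_, rfl⟩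
  have hyr : (y : ℝ) ≤ (P : ℝ) / (1 + η) := by
    rw [hy]
    exact Nat.floor_le (by positivity)
  have hy1 : P / 2 ≤ y := by
    rw [hy]
    refine Nat.le_floor ?_
    refine (Nat.cast_div_le (α := ℝ)).trans ?_
    push_cast
    exact div_le_div_of_nonneg_left hP0.le (by linarith) (by linarith)
  have hy2 : y ≤ P := by
    have h1 : (y : ℝ) ≤ P := hyr.trans (div_le_self hP0.le (by linarith))
    exact_mod_cast h1
  have k1 := (abs_le.1 (h0 P (by omega) y hy1 hy2)).2
  have k2 := (abs_le.1 (h0 P (by omega) P (Nat.div_le_self _ _) le_rfl)).1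
  rw [KT.CntP_all] at k2
  have hsplit : (KT.PP P).card = ((KT.PP P).filter (fun n => n ≤ y)).card + ((KT.PP P).filter (fun n => ¬ n ≤ y)).card :=
    (Finset.card_filter_add_card_filter_not (s := KT.PP P) (fun n => n ≤ y)).symm
  have hsub : (KT.PP P).filter (fun n => ¬ n ≤ y) ⊆ Nar η P := by
    intro n hn
    obtain ⟨hn1, hn2⟩ := mem_filter.1 hn
    unfold Nar
    rw [mem_filter]
    refine ⟨hn1, ?_⟩
    have h1 : ⌊(P : ℝ) / (1 + η)⌋₊ < n := by
      rw [← hy]
      omega
    have h2 : (P : ℝ) / (1 + η) < n := Nat.lt_of_floor_lt h1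
    rw [div_lt_iff₀ (by linarith)] at h2
    linarith
  have hcard : (((KT.PP P).filter (fun n => ¬ n ≤ y)).card : ℝ) ≤ ((Nar η P).card : ℝ) := by
    exact_mod_cast Finset.card_le_card hsub
  have hsr : ((KT.PP P).card : ℝ) = (((KT.PP P).filter (fun n => n ≤ y)).card : ℝ) +
      (((KT.PP P).filter (fun n => ¬ n ≤ y)).card : ℝ) := by exact_mod_cast hsplit
  have e1 : 20 * (P : ℝ) / Real.log P ≤ P * η / 16 := by
    rw [div_le_div_iff₀ hL0 (by norm_num)]
    have e2 : 320 ≤ η * Real.log P := by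
      rw [div_le_iff₀ hη] at hL
      linarith
    nlinarith
  have e2 : (P : ℝ) / (1 + η) ≤ P - P * η / 2 := by
    rw [div_le_iff₀ (by linarith)]
    nlinarith [mul_nonneg hP0.le (mul_nonneg hη.le (sub_nonneg.2 hη1))]
  have e3 : (P : ℝ) * η / 8 ≤ (((KT.PP P).filter (fun n => ¬ n ≤ y)).card : ℝ) * Real.log P := by
    rw [hsr, add_mul] at k2
    linarith
  have e4 : (P : ℝ) * η / 8 ≤ ((Nar η P).card : ℝ) * Real.log P := e3.trans (mul_le_mul_of_nonneg_right hcard hL0.le)
  rw [div_le_iff₀ (by positivity)]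
  calc (P : ℝ) = 8 / η * (P * η / 8) := by field_simp
    _ ≤ 8 / η * (((Nar η P).card : ℝ) * Real.log P) := mul_le_mul_of_nonneg_left e4 (by positivity)
    _ = ((Nar η P).card : ℝ) * (8 / η * Real.log P) := by ring

/-- a function `h` with `ζ ^ h n = g n`, and for every `η` sets of primes in `(P/(1+η), P]` on which `g²` is constant -/
theorem exists_lab {q : ℕ} (hq : 0 < q) {g : ℕ → ℂ} (hmul : ∀ a b : ℕ, 0 < a → 0 < b → g (a * b) = g a * g b)
    (hroot : ∀ n : ℕ, 0 < n → g n ^ q = 1) :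
    ∃ (ζ : ℂ) (h : ℕ → ℕ), ζ ^ q = 1 ∧ (∀ n : ℕ, 0 < n → ζ ^ h n = g n) ∧ ∀ η : ℝ, 0 < η →
      ∃ L : Lab, L.h = h ∧ (∀ P : ℕ, ∃ γ : ℂ, ‖γ‖ = 1 ∧ ∀ p ∈ L.ps P, (ζ ^ L.h p) ^ 2 = γ) ∧
        ∀ P p : ℕ, p ∈ L.ps P → (P : ℝ) ≤ (1 + η) * p := by
  classical
  have hζ := Complex.isPrimitiveRoot_exp q (by omega)
  generalize Complex.exp (2 * Real.pi * Complex.I / q) = ζ at hζ
  have _ : NeZero q := ⟨by omega⟩
  have hd : ∀ n : ℕ, ∃ i : ℕ, 0 < n → ζ ^ i = g n := by
    intro n
    by_cases h0 : 0 < n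
    · obtain ⟨i, -, hi⟩ := hζ.eq_pow_of_pow_eq_one (hroot n h0)
      exact ⟨i, fun _ => hi⟩
    · exact ⟨0, fun h => absurd h h0⟩
  choose d hd using hd
  obtain ⟨h, hh⟩ : ∃ h : ℕ → ℕ, h = fun n => (n.primeFactorsList.map d).sum := ⟨_, rfl⟩
  have hadd : ∀ a b : ℕ, a ≠ 0 → b ≠ 0 → h (a * b) = h a + h b := by
    intro a b ha hb
    rw [hh]
    show ((a * b).primeFactorsList.map d).sum = (a.primeFactorsList.map d).sum + (b.primeFactorsList.map d).sum
    rw [((Nat.perm_primeFactorsList_mul ha hb).map d).sum_eq, List.map_append, List.sum_append]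
  refine ⟨ζ, h, hζ.pow_eq_one, fun n => ?_, fun η hη => ?_⟩
  · induction n using induction_on_primes with
    | zero => intro h0; exact absurd h0 (lt_irrefl 0)
    | one =>
      intro _
      have h1 := hmul 1 1 one_pos one_pos
      rw [mul_one] at h1
      have h2 : g 1 ≠ 0 := by
        intro h3
        have h4 := hroot 1 one_pos
        rw [h3, zero_pow (by omega)] at h4
        exact zero_ne_one h4
      have h3 : g 1 = 1 := (mul_eq_left₀ h2).1 h1.symm
      rw [h3, hh]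
      simp
    | prime_mul p a hp ih =>
      intro hpa
      have ha : 0 < a := Nat.pos_of_mul_pos_left hpa
      rw [hadd p a hp.ne_zero ha.ne', pow_add, ih ha, hmul p a hp.pos ha]
      have h1 : h p = d p := by
        rw [hh]
        show (p.primeFactorsList.map d).sum = d p
        rw [Nat.primeFactorsList_prime hp, List.map_singleton, List.sum_singleton]
      rw [h1, hd p hp.pos]
  · obtain ⟨η', hη'⟩ : ∃ η' : ℝ, η' = min η 1 := ⟨_, rfl⟩
    have hη0 : 0 < η' := by
      rw [hη']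
      exact lt_min hη one_pos
    have hη1 : η' ≤ 1 := by
      rw [hη']
      exact min_le_right _ _
    have hη2 : η' ≤ η := by
      rw [hη']
      exact min_le_left _ _
    have hqr : (0 : ℝ) < q := by exact_mod_cast hq
    have hpig : ∀ P : ℕ, ∃ i : ℕ, ((Nar η' P).card : ℝ) / q ≤
        (((Nar η' P).filter (fun p => (2 * h p) % q = i)).card : ℝ) := by
      intro P
      obtain ⟨i, -, hi⟩ := Finset.exists_le_card_fiber_of_nsmul_le_card_of_maps_to (s := Nar η' P) (t := range q)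
        (f := fun p => (2 * h p) % q) (b := ((Nar η' P).card : ℝ) / q)
        (fun p _ => mem_range.2 (Nat.mod_lt _ hq)) ⟨0, mem_range.2 hq⟩ (by
          rw [card_range, nsmul_eq_mul]
          exact (mul_div_cancel₀ _ hqr.ne').le)
      exact ⟨i, hi⟩
    choose i hi using hpig
    obtain ⟨P₀, hP₀⟩ := nar_low hη0 hη1
    refine ⟨⟨h, hadd, fun P => (Nar η' P).filter (fun p => (2 * h p) % q = i P), fun P p hp => ?_, q * (8 / η'),
      by positivity, P₀, fun P hP => ?_⟩, rfl, fun P => ?_, fun P p hp => ?_⟩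
    · have h1 := (mem_filter.1 (mem_filter.1 hp).1).1
      obtain ⟨h1, h2, h3⟩ := KT.mem_PP.1 h1
      exact ⟨h1, h2, h3⟩
    · refine le_trans ?_ (hi P)
      have h1 := hP₀ P hP
      have h2 : (P : ℝ) / (q * (8 / η') * Real.log P) = (P : ℝ) / (8 / η' * Real.log P) / q := by
        rw [div_div]
        congr 1
        ring
      rw [h2]
      exact div_le_div_of_nonneg_right h1 hqr.le
    · refine ⟨ζ ^ i P, ?_, fun p hp => ?_⟩
      · rw [norm_pow, hζ.norm'_eq_one (by omega), one_pow]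
      · have h1 := (mem_filter.1 hp).2
        show (ζ ^ h p) ^ 2 = ζ ^ i P
        rw [← pow_mul, mul_comm, ← h1]
        exact pow_eq_pow_mod _ hζ.pow_eq_one
    · have h1 := (mem_filter.1 (mem_filter.1 hp).1).2
      refine h1.trans (mul_le_mul_of_nonneg_right (by linarith) (Nat.cast_nonneg _))

end Pool.Agent.Lib.MP_d57abb_nt.GT
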