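import Pool.Agent.Lib.MP_d57abb_nt.GT.Lab
import Pool.Agent.Lib.MP_d57abb_nt.GA.MR.MRp
import Pool.Agent.Lib.MP_d57abb_nt.GA.AW.FinW
import Pool.Agent.Lib.MP_d57abb_nt.GA.AS.OkN
import Pool.Agent.Lib.MP_d57abb_nt.MR.ChG

/-!
# Functions which do not pretend to be characters of the residue classes
-/

namespace Pool.Agent.Lib.MP_d57abb_nt.GT

open Finset Filter Topology
open Pool.Agent.Lib.MP_d57abb_nt.GA.TA (Lab SP)
open Pool.Agent.Lib.MP_d57abb_nt.GA Pool.Agent.Lib.MP_d57abb_nt.GA.TZ Pool.Agent.Lib.MP_d57abb_nt.GA.AS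

open Classical in
/-- `g` does not pretend to be the inverse of a character of the residue classes -/
def NPx (g : ℕ → ℂ) : Prop := ∀ W : ℕ, ∀ _ : NeZero W, 5 ∣ W → ∀ χ : MulChar (MR.RW W) ℂ, χ (MR.red W MR.om) = 1 →
  ∀ B : ℝ, ∃ y : ℝ,
    B ≤ ∑ p ∈ (MR.PP W y).filter (fun p => g (MR.N p).natAbs * χ (MR.red W p) ≠ 1), 1 / (MR.N p : ℝ)

private theorem NPx_pos {W : ℕ} {y : ℝ} {p : MR.O} (hp : p ∈ MR.PP W y) : 0 < (MR.N p).natAbs := by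
  have := (MR.mem_PP.1 hp).1.tp.N_pos
  omega

theorem npx_lab [Lab] {ζ : ℂ} {g : ℕ → ℂ} (hL : ∀ n : ℕ, 0 < n → ζ ^ Lab.h n = g n) (hg : NPx g) : MRG.NPr ζ := by
  classical
  intro W hW h5 χ hom B
  obtain ⟨y, hy⟩ := hg W hW h5 χ hom B
  refine ⟨y, hy.trans (le_of_eq (Finset.sum_congr ?_ fun _ _ => rfl))⟩
  ext p
  rw [mem_filter, mem_filter]
  refine and_congr_right fun hp => ?_
  rw [hL _ (NPx_pos hp)]

/-- the hypotheses of the theorems on sums -/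
theorem npx_ok {q : ℕ} (hq : 0 < q) {g : ℕ → ℂ} (hmul : ∀ a b : ℕ, 0 < a → 0 < b → g (a * b) = g a * g b)
    (hroot : ∀ n : ℕ, 0 < n → g n ^ q = 1) (hnp : NPx g) :
    ∃ ζ : ℂ, ζ ^ q = 1 ∧ ∃ L : Lab, OkN ζ ∧ ∀ n : ℕ, 0 < n → ζ ^ L.h n = g n := by
  obtain ⟨ζ, h, hζ, hh, hex⟩ := exists_lab hq hmul hroot
  have hok : ∀ L : Lab, L.h = h → (∀ P : ℕ, ∃ γ : ℂ, ‖γ‖ = 1 ∧ ∀ p ∈ L.ps P, (ζ ^ L.h p) ^ 2 = γ) → @MS.Ok L ζ := by
    intro L hL hcst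
    refine ⟨MRG.mrp hq hζ (npx_lab (fun n hn => ?_) hnp), hcst⟩
    rw [hL]
    exact hh n hn
  obtain ⟨L, hL, hcst, -⟩ := hex 1 one_pos
  have hnar : ∀ η : ℝ, 0 < η → ∃ L' : Lab, L'.h = L.h ∧ @MS.Ok L' ζ ∧
      ∀ P p : ℕ, p ∈ L'.ps P → (P : ℝ) ≤ (1 + η) * p := by
    intro η hη
    obtain ⟨L', hL', hcst', hnar'⟩ := hex η hη
    exact ⟨L', by rw [hL', hL], hok L' hL' hcst', hnar'⟩
  exact ⟨ζ, hζ, L, ⟨hok L hL hcst, hnar⟩, fun n hn => by rw [hL]; exact hh n hn⟩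

/-- the sums over windows -/
theorem win {q : ℕ} (hq : 0 < q) {g : ℕ → ℂ} (hmul : ∀ a b : ℕ, 0 < a → 0 < b → g (a * b) = g a * g b)
    (hroot : ∀ n : ℕ, 0 < n → g n ^ q = 1) (hnp : NPx g) :
    ∀ c : ℝ, 1 < c → ∀ ε : ℝ, 0 < ε → ∃ K : ℝ, 0 ≤ K ∧ ∀ A X : ℕ, 1 ≤ A → A ≤ X →
      ‖∑ k ∈ Ioc A X, ((tc c k / k : ℝ) : ℂ) * g (ff k)‖ ≤ ε * Real.log (X / A) + K := by
  obtain ⟨ζ, hζ, L, hOk, hL⟩ := npx_ok hq hmul hroot hnp
  have hom : ∀ k : ℕ, ζ ^ om k = g (ff k) := by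
    intro k
    unfold om
    exact hL _ (by unfold ff; positivity)
  intro c hc ε hε
  obtain ⟨K, hK0, hK⟩ := AW.shW (by omega) hζ hOk.ok hc hε
  refine ⟨K, hK0, fun A X hA hX => ?_⟩
  have h1 := hK A X hA hX
  unfold AW.Lc at h1
  simp only [hom] at h1
  exact h1

theorem five_one {W : ℕ} (h5 : 5 ∣ W) : MR.Five (1 : ZMod W) := by
  intro n hn
  left
  have h1 := congrArg (ZMod.castHom h5 (ZMod 5)) hn
  rw [map_natCast, map_one] at h1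
  have h2 : ((n : ℕ) : ZMod 5) = ((1 : ℕ) : ZMod 5) := by rw [h1, Nat.cast_one]
  exact (ZMod.natCast_eq_natCast_iff' n 1 5).1 h2

/-- if the square of the value at the large primes which are `1` modulo `Q` is a constant different from `1` then `g` does not
pretend to be a character -/
theorem npx_gamma {g : ℕ → ℂ} {γ : ℂ} {P₀ Q : ℕ} (hQ0 : 0 < Q) (hQ5 : 5 ∣ Q)
    (hγ : ∀ p : ℕ, p.Prime → p % Q = 1 → P₀ ≤ p → g p ^ 2 = γ) (h1 : γ ≠ 1) : NPx g := by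
  classical
  intro W hW h5 χ hom B
  by_contra hcon
  push Not at hcon
  have hQW : NeZero (W * Q) := ⟨Nat.mul_ne_zero (NeZero.ne W) hQ0.ne'⟩
  have h55 : 5 ∣ W * Q := Dvd.dvd.mul_right h5 _
  obtain ⟨P, hP⟩ : ∃ P : MR.O → Prop, ∀ p, P p ↔ (g (MR.N p).natAbs * χ (MR.red W p) = 1 ∧ P₀ ≤ (MR.N p).natAbs) :=
    ⟨_, fun _ => Iff.rfl⟩
  have hgood : ∀ y : ℝ, ∑ p ∈ (MR.PP (W * Q) y).filter (fun p => ¬ P p), 1 / (MR.N p : ℝ) ≤
      B + ∑ p ∈ MR.PP W (P₀ : ℝ), 1 / (MR.N p : ℝ) := by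
    intro y
    have hs1 : (MR.PP (W * Q) y).filter (fun p => ¬ P p) ⊆
        (MR.PP W y).filter (fun p => g (MR.N p).natAbs * χ (MR.red W p) ≠ 1) ∪ MR.PP W (P₀ : ℝ) := by
      intro p hp
      obtain ⟨hp1, hp2⟩ := mem_filter.1 hp
      obtain ⟨hp3, hp4⟩ := MR.mem_PP.1 hp1
      have d1 : MR.Dg W p := ⟨hp3.1, hp3.2.1, fun hd => hp3.2.2 (Dvd.dvd.mul_right hd _)⟩
      rw [mem_union, mem_filter]
      by_cases h3 : g (MR.N p).natAbs * χ (MR.red W p) = 1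
      · refine Or.inr (MR.mem_PP.2 ⟨d1, ?_⟩)
        have h4 : ¬ P₀ ≤ (MR.N p).natAbs := fun h4 => hp2 ((hP p).2 ⟨h3, h4⟩)
        have h5 : MR.N p ≤ (P₀ : ℤ) := by
          have := d1.tp.N_pos
          omega
        exact_mod_cast h5
      · exact Or.inl ⟨MR.mem_PP.2 ⟨d1, hp4⟩, h3⟩
    have hnn : ∀ z : ℝ, ∀ p ∈ MR.PP W z, 0 ≤ 1 / (MR.N p : ℝ) := by
      intro z p hp
      have := (MR.mem_PP.1 hp).1.tp.N_pos
      positivity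
    have h3 := Finset.sum_le_sum_of_subset_of_nonneg (f := fun p : MR.O => 1 / (MR.N p : ℝ)) hs1 fun p hp _ => by
      rcases mem_union.1 hp with hp | hp
      · exact hnn y p (mem_filter.1 hp).1
      · exact hnn _ p hp
    have h4 := Finset.sum_union_inter (s₁ := (MR.PP W y).filter (fun p => g (MR.N p).natAbs * χ (MR.red W p) ≠ 1))
      (s₂ := MR.PP W (P₀ : ℝ)) (f := fun p : MR.O => 1 / (MR.N p : ℝ))
    have h5 : 0 ≤ ∑ p ∈ (MR.PP W y).filter (fun p => g (MR.N p).natAbs * χ (MR.red W p) ≠ 1) ∩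
        MR.PP W (P₀ : ℝ), 1 / (MR.N p : ℝ) :=
      Finset.sum_nonneg fun p hp => hnn _ p (mem_inter.1 hp).2
    have h6 := (hcon y).le
    linarith
  obtain ⟨p, hd, hP1, hP2, hn⟩ := MR.exists_good h55 P hgood isUnit_one (five_one h55)
  obtain ⟨h3, hPp⟩ := (hP _).1 hP1
  obtain ⟨h4, -⟩ := (hP _).1 hP2
  have hN : MR.N (⟨p.im, p.re⟩ : MR.O) = MR.N p := by
    show p.im ^ 2 + 3 * p.im * p.re + p.re ^ 2 = p.re ^ 2 + 3 * p.re * p.im + p.im ^ 2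
    ring
  rw [hN, MR.red_swap, map_mul, hom, one_mul] at h4
  rw [MR.nm_red] at hn
  have hNp := hd.tp.N_pos
  have hn1 : MR.nm (MR.red W p) = 1 := by
    rw [MR.nm_red]
    have h5 := congrArg (ZMod.castHom (Dvd.intro _ rfl : W ∣ W * Q) (ZMod W)) hn
    rw [map_intCast, map_one] at h5
    exact h5
  have hQ : 5 ≤ Q := Nat.le_of_dvd hQ0 hQ5
  have hnQ : (MR.N p).natAbs % Q = 1 := by
    have h5 := congrArg (ZMod.castHom (Dvd.intro_left _ rfl : Q ∣ W * Q) (ZMod Q)) hn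
    rw [map_intCast, map_one] at h5
    have h6 : (((MR.N p).natAbs : ℕ) : ZMod Q) = ((1 : ℕ) : ZMod Q) := by
      rw [Nat.cast_one, ← h5]
      have h7 : MR.N p = (((MR.N p).natAbs : ℕ) : ℤ) := by omega
      conv_rhs => rw [h7]
      rw [Int.cast_natCast]
    have h7 := (ZMod.natCast_eq_natCast_iff' _ _ _).1 h6
    rw [h7, Nat.mod_eq_of_lt (by omega)]
  have h8 := hγ _ hd.2.1 hnQ hPp
  apply h1
  rw [← h8]
  have h9 : χ (MR.red W p) * χ (star (MR.red W p)) = 1 := by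
    rw [← map_mul, MR.mul_star_RW, hn1, MR.cst_one, map_one]
  calc g (MR.N p).natAbs ^ 2 = g (MR.N p).natAbs ^ 2 * (χ (MR.red W p) * χ (star (MR.red W p))) := by rw [h9, mul_one]
    _ = (g (MR.N p).natAbs * χ (MR.red W p)) * (g (MR.N p).natAbs * χ (star (MR.red W p))) := by ring
    _ = 1 := by rw [h3, h4, one_mul]

end Pool.Agent.Lib.MP_d57abb_nt.GT
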